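import Mathlib

/-!
Coordinates for the classification of three-dimensional faces of sails (MP_0bc52e_nt): points of
space are triples `(x, y, z) : ℝ × ℝ × ℝ`, points of the plane are pairs.
-/

namespace Pool.Agent.Lib.MP_0bc52e_nt.LC

/-- The real point with the given integer coordinates. -/
def ip (v : ℤ × ℤ × ℤ) : ℝ × ℝ × ℝ := ((v.1 : ℝ), (v.2.1 : ℝ), (v.2.2 : ℝ))

/-- The real point of the plane with the given integer coordinates. -/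
def ip2 (v : ℤ × ℤ) : ℝ × ℝ := ((v.1 : ℝ), (v.2 : ℝ))

/-- An integer polytope of space. -/
def IsLP3 (P : Set (ℝ × ℝ × ℝ)) : Prop :=
  ∃ V : Finset (ℤ × ℤ × ℤ), P = convexHull ℝ (ip '' (V : Set (ℤ × ℤ × ℤ)))

/-- An integer polygon of the plane. -/
def IsLP2 (Q : Set (ℝ × ℝ)) : Prop :=
  ∃ V : Finset (ℤ × ℤ), Q = convexHull ℝ (ip2 '' (V : Set (ℤ × ℤ)))

/-- The criterion `C(P, p)` at `o = (a, b, c)`: for `0 < h < p` no integer point of `h • P` is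
congruent to `h • o` modulo `p`. -/
def Crit3 (P : Set (ℝ × ℝ × ℝ)) (p : ℕ) (a b c : ℤ) : Prop :=
  ∀ h : ℕ, 0 < h → h < p → ∀ x y z : ℤ, ∀ u v w : ℝ, (u, v, w) ∈ P →
    (x : ℝ) = h * u → (y : ℝ) = h * v → (z : ℝ) = h * w →
    (p : ℤ) ∣ x - h * a → (p : ℤ) ∣ y - h * b → (p : ℤ) ∣ z - h * c → False

/-- The same in the plane. -/
def Crit2 (F : Set (ℝ × ℝ)) (p : ℕ) (b c : ℤ) : Prop :=
  ∀ h : ℕ, 0 < h → h < p → ∀ y z : ℤ, ∀ v w : ℝ, (v, w) ∈ F →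
    (y : ℝ) = h * v → (z : ℝ) = h * w →
    (p : ℤ) ∣ y - h * b → (p : ℤ) ∣ z - h * c → False

/-- The integer points of `P` meet every residue class modulo `2`. -/
def PC3 (P : Set (ℝ × ℝ × ℝ)) : Prop :=
  ∀ a b c : ℤ, ∃ x y z : ℤ, ip (x, y, z) ∈ P ∧ (2 : ℤ) ∣ x - a ∧ (2 : ℤ) ∣ y - b ∧ (2 : ℤ) ∣ z - c

/-- The integer points of `Q` meet every residue class modulo `2`. -/
def PC2 (Q : Set (ℝ × ℝ)) : Prop :=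
  ∀ a b : ℤ, ∃ x y : ℤ, ip2 (x, y) ∈ Q ∧ (2 : ℤ) ∣ x - a ∧ (2 : ℤ) ∣ y - b

/-- The projection to the plane along the third coordinate direction. -/
def proj (P : Set (ℝ × ℝ × ℝ)) : Set (ℝ × ℝ) := (fun v : ℝ × ℝ × ℝ => (v.1, v.2.1)) '' P

/-- The standing assumptions: `P` is an integer polytope whose integer points meet all classes
modulo `2`, that satisfies the criterion for `p` and contains a vertical segment of length `L`. -/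
structure VD (P : Set (ℝ × ℝ × ℝ)) (p : ℕ) (L : ℝ) : Prop where
  lp : IsLP3 P
  pc : PC3 P
  crit : ∃ a b c : ℤ, Crit3 P p a b c
  chord : ∃ X Y Z : ℝ, (X, Y, Z) ∈ P ∧ (X, Y, Z + L) ∈ P

/-- What the criterion says about the projection `Q`: no integer point of
`(p/L) (X, Y) + (h - p/L) Q` is congruent to `h (a, b)` modulo `p`. -/
def Diam (Q : Set (ℝ × ℝ)) (p : ℕ) (a b : ℤ) (X Y L : ℝ) : Prop :=
  ∀ h : ℕ, 0 < h → h < p → (p : ℝ) / L ≤ h → ∀ q ∈ Q, ∀ r s : ℤ,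
    (r : ℝ) = p / L * X + (h - p / L) * q.1 → (s : ℝ) = p / L * Y + (h - p / L) * q.2 →
    (p : ℤ) ∣ r - h * a → (p : ℤ) ∣ s - h * b → False

/-- An affine map of the plane given by an integer matrix of determinant `±1` and an integer
translation. -/
def IsUM (g : ℝ × ℝ → ℝ × ℝ) : Prop :=
  ∃ a b c d e f : ℤ, (a * d - b * c = 1 ∨ a * d - b * c = -1) ∧
    ∀ v : ℝ × ℝ, g v = (a * v.1 + b * v.2 + e, c * v.1 + d * v.2 + f)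

/-- The map of space that acts by `g` on the first two coordinates. -/
def lift (g : ℝ × ℝ → ℝ × ℝ) (v : ℝ × ℝ × ℝ) : ℝ × ℝ × ℝ :=
  ((g (v.1, v.2.1)).1, (g (v.1, v.2.1)).2, v.2.2)

/-- Three vertices of the triangle `W` with centroid `0`. -/
def W3 (Q : Set (ℝ × ℝ)) : Prop :=
  ((1 : ℝ), (0 : ℝ)) ∈ Q ∧ ((0 : ℝ), (1 : ℝ)) ∈ Q ∧ ((-1 : ℝ), (-1 : ℝ)) ∈ Q

/-- The four vertices of the unit square. -/
def S4 (Q : Set (ℝ × ℝ)) : Prop :=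
  ((0 : ℝ), (0 : ℝ)) ∈ Q ∧ ((1 : ℝ), (0 : ℝ)) ∈ Q ∧ ((0 : ℝ), (1 : ℝ)) ∈ Q ∧ ((1 : ℝ), (1 : ℝ)) ∈ Q

/-- `Q` lies in the triangle `(0,0), (2,0), (0,2)` and contains its vertices. -/
def Dl (Q : Set (ℝ × ℝ)) : Prop :=
  ((0 : ℝ), (0 : ℝ)) ∈ Q ∧ ((2 : ℝ), (0 : ℝ)) ∈ Q ∧ ((0 : ℝ), (2 : ℝ)) ∈ Q ∧
    ∀ v ∈ Q, 0 ≤ v.1 ∧ 0 ≤ v.2 ∧ v.1 + v.2 ≤ 2

/-- `Q` lies in the strip `0 ≤ x ≤ 1`. -/
def Strip (Q : Set (ℝ × ℝ)) : Prop := ∀ v ∈ Q, 0 ≤ v.1 ∧ v.1 ≤ 1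

/-- All coordinates are integers. -/
def IsI (v : ℝ × ℝ × ℝ) : Prop := ∃ w : ℤ × ℤ × ℤ, v = ip w

/-- Integer equivalence of subsets of space. -/
def ZEq (P P' : Set (ℝ × ℝ × ℝ)) : Prop :=
  ∃ g : (ℝ × ℝ × ℝ) ≃ᵃ[ℝ] (ℝ × ℝ × ℝ), (∀ v, IsI (g v) ↔ IsI v) ∧ g '' P = P'

/-- The polytope `P(c; s, t)`. -/
def fam (c s t : ℤ) : Set (ℝ × ℝ × ℝ) :=
  convexHull ℝ {ip (0, 0, 0), ip (0, 2, c), ip (1, 0, 0), ip (1, 0, 1), ip (1, 1, 0), ip (1, 1, 1),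
    ip (0, 1, s), ip (0, 1, t)}

/-- `P` projects into the trapezoid `0 ≤ x ≤ 1`, `0 ≤ y ≤ m - (m - n) x` and has integer points
over its four corners. -/
def Trap (P : Set (ℝ × ℝ × ℝ)) (m n : ℤ) : Prop :=
  (∀ v ∈ P, 0 ≤ v.1 ∧ v.1 ≤ 1 ∧ 0 ≤ v.2.1 ∧ v.2.1 ≤ m - (m - n) * v.1) ∧
  (∃ z : ℤ, ip (0, 0, z) ∈ P) ∧ (∃ z : ℤ, ip (0, m, z) ∈ P) ∧
  (∃ z : ℤ, ip (1, 0, z) ∈ P) ∧ (∃ z : ℤ, ip (1, n, z) ∈ P)

/-- `Q` contains the trapezoid `0 ≤ x ≤ 1`, `0 ≤ y ≤ m - (m - n) x`. -/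
def TrapQ (Q : Set (ℝ × ℝ)) (m n : ℤ) : Prop :=
  ∀ x y : ℝ, 0 ≤ x → x ≤ 1 → 0 ≤ y → y ≤ m - (m - n) * x → (x, y) ∈ Q

end Pool.Agent.Lib.MP_0bc52e_nt.LC
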