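import Pool.Agent.Lib.MP_0bc52e_nt.Residues
import Pool.Agent.Lib.MP_0bc52e_nt.LC.Defs

/-!
Definitions linking the coordinates `ℝ × ℝ × ℝ` with `Fin 3 → ℝ`, and the family `P(c; s, t)`.
-/

open scoped Pointwise

namespace Pool.Agent.Lib.MP_0bc52e_nt

/-- The polytope `P(c; s, t)` with the eight vertices (or boundary points) listed. -/
def famS (c s t : ℤ) : Set (Fin 3 → ℝ) :=
  convexHull ℝ {![0, 0, 0], ![0, 2, (c : ℝ)], ![1, 0, 0], ![1, 0, 1], ![1, 1, 0], ![1, 1, 1],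
    ![0, 1, (s : ℝ)], ![0, 1, (t : ℝ)]}

namespace LC

/-- The same set in coordinates. -/
def T3 (P : Set (Fin 3 → ℝ)) : Set (ℝ × ℝ × ℝ) := {v | ![v.1, v.2.1, v.2.2] ∈ P}

/-- The integer points of `P` miss a class modulo `2`. -/
def Miss2 (P : Set (Fin 3 → ℝ)) : Prop :=
  ∃ c : Fin 3 → ℤ, ∀ x : Fin 3 → ℤ, (fun i => (x i : ℝ)) ∈ P → ¬ ∀ i, (2 : ℤ) ∣ x i - c i

/-- The integer points of `2 • P` miss a class modulo `3`. -/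
def Miss3 (P : Set (Fin 3 → ℝ)) : Prop :=
  ∃ c : Fin 3 → ℤ, ∀ x : Fin 3 → ℤ, (fun i => (x i : ℝ)) ∈ (2 : ℝ) • P →
    ¬ ∀ i, (3 : ℤ) ∣ x i - c i

/-- For some `o`, no integer point of `3 • P` is `3 o` and none of `4 • P` is `4 o` modulo `5`. -/
def Miss5 (P : Set (Fin 3 → ℝ)) : Prop :=
  ∃ o : Fin 3 → ℤ, ∀ x : Fin 3 → ℤ,
    ((fun i => (x i : ℝ)) ∈ (3 : ℝ) • P → ¬ ∀ i, (5 : ℤ) ∣ x i - 3 * o i) ∧
    ((fun i => (x i : ℝ)) ∈ (4 : ℝ) • P → ¬ ∀ i, (5 : ℤ) ∣ x i - 4 * o i)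

/-- `P` contains a segment of `1000` times a nonzero integer vector. -/
def Long (P : Set (Fin 3 → ℝ)) : Prop :=
  ∃ v : Fin 3 → ℤ, v ≠ 0 ∧ ∃ x ∈ P, x + (1000 : ℝ) • (fun i => (v i : ℝ)) ∈ P

/-- `P` is integer equivalent to a member of the family. -/
def InFam (P : Set (Fin 3 → ℝ)) : Prop :=
  ∃ c s t : ℤ, Odd c ∧ 3 ≤ |c| ∧ s ≤ t ∧ IntegerEquivalent P (famS c s t)

end LC

end Pool.Agent.Lib.MP_0bc52e_nt
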