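import Pool.Agent.Lib.MP_0bc52e_nt.LC.Defs

/-!
# Statements, part B: columns, the triangle `2Δ`, polytopes of width one

Conventions as in part A: `r ≡ s` means `(p : ℤ) ∣ r - s`; `[res]`, `[plane]` etc. refer to `S_res`, `S_plane` in `StmA.lean`.
The column over an integer point `(E₁, E₂)` of the plane is the set of integers `k` with `ip (E₁, E₂, k) ∈ P`; by convexity it is an
interval of integers.
-/

namespace Pool.Agent.Lib.MP_0bc52e_nt.LC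

/-! ## E. Columns -/

/-- [pair] Consecutive points in a column. Proof: if `k₁ < k₂` are in the column, so is `k₁ + 1` (it lies on the segment). So take the smaller of
`k₁, k₂` (they have different parity, so they differ) and the next integer. -/
def S_pair : Prop := ∀ (P : Set (ℝ × ℝ × ℝ)) (E₁ E₂ k₁ k₂ : ℤ), Convex ℝ P → ip (E₁, E₂, k₁) ∈ P → ip (E₁, E₂, k₂) ∈ P →
  ¬ (2 : ℤ) ∣ k₁ - k₂ → ∃ e : ℤ, ip (E₁, E₂, e) ∈ P ∧ ip (E₁, E₂, e + 1) ∈ P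

/-- [col] `o` is not congruent to a point below a column with two consecutive integers. Proof: `h = p - 1`. By `[res]` there is an integer `t` with
`0 ≤ t ≤ p - 1` and `(p-1) e + t ≡ (p-1) c`. The point `(E₁, E₂, e + t/(p-1))` is in `P` (segment), and `(p-1)` times it is the integer point
`((p-1) E₁, (p-1) E₂, (p-1) e + t)`, congruent to `(p-1) (a, b, c)`. Contradiction to `Crit3`. -/
def S_col : Prop := ∀ (P : Set (ℝ × ℝ × ℝ)) (p : ℕ) (a b c E₁ E₂ e : ℤ), Convex ℝ P → 2 ≤ p → Crit3 P p a b c →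
  ip (E₁, E₂, e) ∈ P → ip (E₁, E₂, e + 1) ∈ P → (p : ℤ) ∣ a - E₁ → (p : ℤ) ∣ b - E₂ → False

/-- [edge] Let `E` be the midpoint of `A` and `B = 2E - A`, `o ≡ (A, c)`. Proof. Let `t ∈ [0, p-1]` be the integer with `t ≡ 2e - β - c`. If `t = p - 1`,
then `2e - β - c + 1 ≡ 0`, which is the claim. Otherwise `0 ≤ t ≤ p - 2`; take `h = p - 1` and the integer point
`((p-2) E + B, (p-2) e + t + β) = (p-2) (E, e + t/(p-2)) + (B, β)`, which is in `h • P` (note `p ≥ 3`). Its plane part is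
`(p-2) E + 2E - A = p E - A ≡ -A ≡ h A ≡ h (a, b)`, and its height is `≡ -2e + t + β ≡ -c ≡ h c`. Contradiction to `Crit3`. -/
def S_edge : Prop := ∀ (P : Set (ℝ × ℝ × ℝ)) (p : ℕ) (a b c A₁ A₂ E₁ E₂ e β : ℤ), Convex ℝ P → 3 ≤ p → Crit3 P p a b c →
  (p : ℤ) ∣ a - A₁ → (p : ℤ) ∣ b - A₂ → ip (E₁, E₂, e) ∈ P → ip (E₁, E₂, e + 1) ∈ P →
  ip (2 * E₁ - A₁, 2 * E₂ - A₂, β) ∈ P → (p : ℤ) ∣ c + β - (2 * e + 1)

/-- [edge2] Proof. By `[edge]` `c + β ≡ 2e + 1`. `h = 1` in `Crit3` for the point `(A, α)` gives `α ≢ c`. Suppose `α - β` is odd, `α + β = 2 g + 1`. The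
midpoint `(E, g + 1/2)` of `(A, α)` and `(B, β)` is in `P`. If `g ≥ e + 2`, then `(E, e+2)` lies between `(E, e)` and `(E, g+1/2)`, so
`e + 2` is in the column over `E`: excluded. If `g ≤ e - 2`: then `e - 1` is in the column: excluded. So `g ∈ {e-1, e, e+1}`. `g = e`: `α + β = 2e + 1 ≡ c + β`,
so `α ≡ c`: excluded. `g = e - 1`: take `h = p - 1` and the integer point `(A, α) + (p-4) (E, e) + 2 (B, β)`: its plane part is
`A + (p-4) E + 2 (2E - A) = p E - A ≡ h (a,b)` and its height `α + (p-4) e + 2β ≡ (2e - 1 - β) - 4e + 2β = β - 2e - 1 ≡ -c ≡ h c`. Contradiction.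
`g = e + 1`: the same with `(E, e+1)` instead of `(E, e)`: `α + (p-4)(e+1) + 2β ≡ (2e + 3 - β) - 4e - 4 + 2β = β - 2e - 1 ≡ -c`. (`p ≥ 5`.) -/
def S_edge2 : Prop := ∀ (P : Set (ℝ × ℝ × ℝ)) (p : ℕ) (a b c A₁ A₂ E₁ E₂ e α β : ℤ), Convex ℝ P → 5 ≤ p → Crit3 P p a b c →
  (p : ℤ) ∣ a - A₁ → (p : ℤ) ∣ b - A₂ → ip (E₁, E₂, e) ∈ P → ip (E₁, E₂, e + 1) ∈ P →
  (∀ k : ℤ, ip (E₁, E₂, k) ∈ P → k = e ∨ k = e + 1) → ip (A₁, A₂, α) ∈ P →
  ip (2 * E₁ - A₁, 2 * E₂ - A₂, β) ∈ P → (2 : ℤ) ∣ α - β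

/-- [only] Consequence of `[edge]`: the column over `E` is exactly `{e, e+1}` and the column over `B` is `{β}`. Proof. If `k > e + 1` is in the column over `E`,
then so is `e + 2`; `[edge]` for the pairs `(e, e+1)` and `(e+1, e+2)` gives `2e + 1 ≡ 2e + 3`, so `p ∣ 2`, impossible. If `k < e`, use `(e-1, e)`. If
`β' ≠ β` is in the column over `B`, then so is one of `β ± 1`, and `[edge]` gives `β ± 1 ≡ β`, so `p ∣ 1`. -/
def S_only : Prop := ∀ (P : Set (ℝ × ℝ × ℝ)) (p : ℕ) (a b c A₁ A₂ E₁ E₂ e β : ℤ), Convex ℝ P → 3 ≤ p → Crit3 P p a b c →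
  (p : ℤ) ∣ a - A₁ → (p : ℤ) ∣ b - A₂ → ip (E₁, E₂, e) ∈ P → ip (E₁, E₂, e + 1) ∈ P →
  ip (2 * E₁ - A₁, 2 * E₂ - A₂, β) ∈ P →
  (∀ k : ℤ, ip (E₁, E₂, k) ∈ P → k = e ∨ k = e + 1) ∧ (∀ k : ℤ, ip (2 * E₁ - A₁, 2 * E₂ - A₂, k) ∈ P → k = β)

/-! ## F. The triangle with vertices `(0,0), (2,0), (0,2)` -/

/-- [Dsmall] `o` is below one of the six points, `p ≤ L/2`. Proof. Let `A, B ∈ [1, p]` be the integers `≡ -a, -b`. If `A + B ≤ 2p - 3`, take `h = p - 1`, `r = A`, `s = B`: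
`lam = h - p/L > 0`, `q = ((A - (p/L)X)/lam, (B - (p/L)Y)/lam)`; since `0 ≤ X, Y ≤ 2`, `p/L ≤ 1/2`, both coordinates are `≥ 0`, and
`A + B - (p/L)(X+Y) ≤ 2 lam` because `2 lam = 2p - 2 - 2p/L ≥ 2p - 3 ≥ A + B`. So `q` is in the triangle, hence in `Q` (convex, contains the vertices);
contradiction to `Diam`. So `A + B ≥ 2p - 2`; put `m = p - A ≥ 0`, `n = p - B ≥ 0`, `m + n ≤ 2`. -/
def S_Dsmall : Prop := ∀ (Q : Set (ℝ × ℝ)) (p : ℕ) (a b : ℤ) (X Y L : ℝ), Convex ℝ Q → Dl Q → (X, Y) ∈ Q → 7 ≤ p → 1000 ≤ L →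
  2 * p ≤ L → Diam Q p a b X Y L → ∃ m n : ℤ, 0 ≤ m ∧ 0 ≤ n ∧ m + n ≤ 2 ∧ (p : ℤ) ∣ a - m ∧ (p : ℤ) ∣ b - n

/-- [Dlarge] The same for `p > L/2`. Proof. Let `η = 2p/L > 1`. (*) If `0 < h < p`, `h ≥ 3 p/L`, `r ≡ h a`, `s ≡ h b`, then not all of `r ≥ η`, `s ≥ η`,
`2h - r - s ≥ η` hold: otherwise `q = ((r - (p/L)X)/lam, (s - (p/L)Y)/lam)`, `lam = h - p/L`, is in the triangle, because `(p/L) X, (p/L) Y ≤ η` and
`r + s - (p/L)(X+Y) ≤ 2 lam` follows from `2h - r - s ≥ η = 2p/L ≥ (p/L)(2 - X - Y)`.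
Let (`[res]`) `A ≡ -a`, `B ≡ -b` be integers in `[η, η + p)`. By (*) for `h = p - 1`, `2(p-1) - A - B < η`. Put `m = p - A`, `n = p - B`, `k = 2 - m - n`
(three integers, sum `2`, `m ≡ a`, `n ≡ b`), all `> -η`. If all are `≥ 0` we are done. Otherwise let `-u` be the smallest of the three, `1 ≤ u < η`. Let `i = ⌈η/u⌉`, so
`1 ≤ i ≤ η/u + 1`, `i u ≥ η`, and take `h = p - i` (`i ≤ η + 1 ≤ 2η = 4p/L`, so `0 < h < p`, `h ≥ 3p/L`). The other two of the three numbers are `≤ 2 + u + u ≤ 4u`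
(each is `2 +` `u -` the third, and the third is `≥ -u`), so `i` times each is `≤ 4 (η + u) ≤ 8η ≤ p - η`.
If `m = -u`: `(r, s) = (-i m, p - i n)`, so `r = i u ≥ η`, `s ≥ p - 8η ≥ η`, `2h - r - s = 2p - 2i + i m - p + i n = p - i k ≥ η`: contradiction to (*).
If `n = -u`: `(r, s) = (p - i m, -i n)`. If `k = -u`: `(r, s) = (p - i m, p - i n)`, `2h - r - s = -2i + i m + i n = -i k = i u ≥ η`. -/
def S_Dlarge : Prop := ∀ (Q : Set (ℝ × ℝ)) (p : ℕ) (a b : ℤ) (X Y L : ℝ), Convex ℝ Q → Dl Q → (X, Y) ∈ Q → 7 ≤ p → 1000 ≤ L →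
  L < 2 * p → Diam Q p a b X Y L → ∃ m n : ℤ, 0 ≤ m ∧ 0 ≤ n ∧ m + n ≤ 2 ∧ (p : ℤ) ∣ a - m ∧ (p : ℤ) ∣ b - n

/-- [Dvert] `o` is not below a vertex. Here `A` is one of the vertices, `B`, `C` the other two; all integer points of `P` lie over the six points of the triangle.
Proof. By `[pair]` and `PC3` the columns over `E = (A+B)/2` and `G = (A+C)/2` contain `e, e+1` and `g, g+1` (these are odd classes: the only integer point of the triangle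
congruent to `E` modulo 2 is `E`). By `[only]` the column over `E` is `{e,e+1}`, the one over `G` is `{g, g+1}`, the ones over `B`, `C` are `{β}`, `{γ}`; by `[edge2]`
every `α` in the column over `A` has `2 ∣ α - β` and `2 ∣ α - γ`. The column over `A` is not empty, so all integer points of `P` over `A, B, C` have heights of the same
parity. But these are all integer points of `P` whose first two coordinates are even, contradiction to `PC3`. -/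
def S_Dvert : Prop := ∀ (P : Set (ℝ × ℝ × ℝ)) (p : ℕ) (a b c A₁ A₂ : ℤ), Convex ℝ P → PC3 P → Dl (proj P) → 7 ≤ p → Crit3 P p a b c →
  (∃ z : ℤ, ip (0, 0, z) ∈ P) → (∃ z : ℤ, ip (2, 0, z) ∈ P) → (∃ z : ℤ, ip (0, 2, z) ∈ P) →
  ((A₁ = 0 ∧ A₂ = 0) ∨ (A₁ = 2 ∧ A₂ = 0) ∨ (A₁ = 0 ∧ A₂ = 2)) → (p : ℤ) ∣ a - A₁ → (p : ℤ) ∣ b - A₂ → False

/-- [caseD] Proof. Let `Crit3 P p a b c` and the chord over `(X, Y)`. `[diam]`, `[Dsmall]`/`[Dlarge]` give `(m, n)`, one of the six integer points of the triangle, with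
`a ≡ m`, `b ≡ n`. If `(m,n)` is `(1,0)`, `(0,1)` or `(1,1)`: by `PC3` there are integer points of `P` of the classes `(m, n, 0)` and `(m, n, 1)` modulo 2; they lie over
`(m, n)`, the only integer point of the triangle in its class; `[pair]` gives two consecutive ones and `[col]` a contradiction. If `(m,n)` is a vertex: `[Dvert]`; the
integer points over the three vertices exist by `[face]` (functionals `x + y`, `2 - x`, `2 - y`: each is `≥ 0` on the triangle, zero only at one vertex). -/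
def S_caseD : Prop := ∀ (P : Set (ℝ × ℝ × ℝ)) (p : ℕ) (L : ℝ), VD P p L → 7 ≤ p → 1000 ≤ L → Dl (proj P) → False

/-! ## G. Width one -/

/-- [N0] Normal form. Proof. Let `P` be the hull of `ip '' V`; all `w ∈ V` have `w.1 ∈ {0, 1}`. Let `b₀ ≤ c₀` be the smallest and largest `w.2.1` over `w ∈ V` with `w.1 = 0` and
`b₁ ≤ c₁` those for `w.1 = 1`. By `PC3` there are integer points of `P` with first coordinate even (so `0`) and second coordinate even, and odd; the points of `P` with first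
coordinate `0` satisfy `b₀ ≤ y ≤ c₀` (see below), so the sets are not empty and `b₀ < c₀`; similarly `b₁ < c₁`. [The inequality `y ≥ b₀ + (b₁ - b₀) x` and
`y ≤ c₀ + (c₁ - c₀) x` hold on `V`, hence on `P`; nonemptiness of `V ∩ {x = 0}`: otherwise `x ≥ 1` on `P`.] Let `m = c₀ - b₀ ≥ 1`, `n = c₁ - b₁ ≥ 1`. If `n ≤ m`, take
`g (x, y) = (x, y - b₀ - (b₁ - b₀) x)`; if `m < n`, compose it with `(x, y) ↦ (1 - x, y)` and exchange `m, n`. Then `0 ≤ y ≤ m - (m-n) x` on the image and the four corners are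
images of points of `V`. -/
def S_N0 : Prop := ∀ (P : Set (ℝ × ℝ × ℝ)), IsLP3 P → PC3 P → (∀ v ∈ P, 0 ≤ v.1 ∧ v.1 ≤ 1) →
  ∃ g : ℝ × ℝ → ℝ × ℝ, IsUM g ∧ ∃ m n : ℤ, 1 ≤ n ∧ n ≤ m ∧ Trap (lift g '' P) m n

/-- [trapq] Proof: a point `(x, y)` of the trapezoid is `(1-x) (0, y₀) + x (1, y₁)` with `y₀ = m θ`, `y₁ = n θ`, `θ = y/(m - (m-n) x) ∈ [0,1]` (the denominator is
`(1-x) m + x n > 0`), and `(0, y₀)`, `(1, y₁)` are on the segments between the corners. -/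
def S_trapq : Prop := ∀ (P : Set (ℝ × ℝ × ℝ)) (m n : ℤ), Convex ℝ P → 1 ≤ n → n ≤ m → Trap P m n → TrapQ (proj P) m n

/-- [Nx] Proof. Let `lam = h - p/L`. `lam = (h - (p/L)(1-X) - (p/L) X) ≥ 0` from the two bounds on `r`; and `lam ≠ 0`, otherwise the last inequality reads `p ≤ 0`
(as then `r = (p/L) X`). So `x := (r - (p/L) X)/lam ∈ [0,1]`. Choose (`[res]`) `s ≡ h b` with `(p/L) Y ≤ s < (p/L) Y + p` and `y := (s - (p/L) Y)/lam ≥ 0`. The last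
inequality says `p/lam ≤ m - (m-n) x`, so `y ≤ m - (m-n) x`. So `(x, y) ∈ Q`, contradiction to `Diam` (`h ≥ p/L` because `lam ≥ 0`). -/
def S_Nx : Prop := ∀ (Q : Set (ℝ × ℝ)) (p : ℕ) (a b : ℤ) (X Y L : ℝ) (m n : ℤ), TrapQ Q m n → Diam Q p a b X Y L → 0 < L →
  ∀ h : ℕ, 0 < h → h < p → ∀ r : ℤ, (p : ℤ) ∣ r - h * a → (p : ℝ) / L * X ≤ r → (r : ℝ) ≤ h - p / L * (1 - X) →
    (p : ℝ) ≤ (h - p / L) * m - (m - n) * (r - p / L * X) → False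

/-- [N2] `n ≥ 2`. Proof. Let `δ = p/L`. (*) For `0 < h < p` with `h ≥ p/2 + δ` and `r ≡ h a`, `δ X ≤ r`, `r ≤ h - δ (1-X)` we get a contradiction from `[Nx]`, because
`(h-δ) m - (m-n)(r - δX) ≥ (h-δ) m - (m-n)(h-δ) = (h-δ) n ≥ 2(h-δ) ≥ p`.
Let (`[res]`) `t ≡ -a` with `δX ≤ t < δX + p` and `k = p - t ≡ a`, so `-δX < k ≤ p - δX`. If `k ≥ 1 + δ(1-X)`, then `h = p - 1`, `r = t` contradicts (*). So
`-δX < k < 1 + δ(1-X)`, in particular `-δ < k < 1 + δ`. If `k ∈ {0, 1}` we are done.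
Case `k ≥ 2`: then `δ > 1`. Let `i = ⌊p/(2k)⌋ ≥ 1` (as `2k ≤ 2 + 2δ ≤ p`), `h = p - i`, `r = p - i k ≡ h a`. `i k ≤ p/2`, so `r ≥ p/2 ≥ δ ≥ δX`;
`i k > p/2 - k`, `i (k-1) ≥ i k/2 ≥ p/4 - k/2 ≥ p/4 - 1/2 - δ/2 ≥ δ`, so `r = p - i k ≤ p - i - δ ≤ h - δ(1-X)`; `i ≤ p/4`, so `h ≥ 3p/4 ≥ p/2 + δ`. Contradiction to (*).
Case `k ≤ -1`: `u = -k`, `1 ≤ u < δ`. Let `i = ⌊p/(3u)⌋ ≥ 1`, `h = p - i`, `r = i u ≡ h a`. `i u > p/3 - u ≥ p/3 - δ ≥ δ ≥ δX`; `i u + i ≤ 2 i u ≤ 2p/3 ≤ p - δ`, so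
`r ≤ h - δ ≤ h - δ(1-X)`; `i ≤ p/3`, `h ≥ 2p/3 ≥ p/2 + δ`. Contradiction to (*). (All numerical inequalities use `L ≥ 1000`, so `δ ≤ p/1000`, and `p ≥ 7`.) -/
def S_N2 : Prop := ∀ (Q : Set (ℝ × ℝ)) (p : ℕ) (a b : ℤ) (X Y L : ℝ) (m n : ℤ), 2 ≤ n → n ≤ m → TrapQ Q m n → Diam Q p a b X Y L →
  7 ≤ p → 1000 ≤ L → 0 ≤ X → X ≤ 1 → ((p : ℤ) ∣ a ∨ (p : ℤ) ∣ a - 1)

/-- [N3] `n = 1`, `m ≥ 2`. Proof. `δ = p/L`. (*) If `0 < h < p`, `r ≡ h a`, `δX ≤ r ≤ h - δ(1-X)`, then `m (h - r) + r < p + m δ`: otherwise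
`(h-δ) m - (m-1)(r - δX) ≥ m h - m δ - (m-1) r ≥ p` and `[Nx]` applies.
As in `[N2]` let `k ≡ a` be the integer with `-δX < k ≤ p - δX`.
(1) `k < 2 + 2δ`: if `k < 1 + δ(1-X)` this is clear; otherwise (*) with `h = p - 1`, `r = p - k` gives `m (k-1) + p - k < p + m δ`, i.e. `m (k - 1 - δ) < k`, so
(as `m ≥ 2`; the left side is `≥ 2 (k-1-δ)` if `k ≥ 1 + δ`) `k < 2 + 2δ`.
(2) `k ≥ 2` and `(k, m) ≠ (2, 2)` is impossible: then `(k-1) m - k ≥ k m/6` (i.e. `1 - 1/k - 1/m ≥ 1/6`: check `m ≥ 3, k ≥ 2` and `m = 2, k ≥ 3`). Let `i = ⌊p/(2k)⌋ ≥ 1`, `h = p - i`,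
`r = p - i k`. `r ≥ p/2 ≥ δX`. `i k > p/2 - k ≥ p/2 - 2 - 2δ`. `i (k-1) ≥ i k/2 ≥ p/4 - 1 - δ`. Subcase `p ≥ 8`: this is `≥ δ`. Subcase `p = 7`: `δ < 1`, so `k < 2 + 2δ` means `k = 2`,
`i = 1`, `i (k-1) = 1 ≥ δ`. So `r ≤ h - δ(1-X)`. (*) gives `m i (k-1) + p - i k < p + m δ`, i.e. `i ((k-1) m - k) < m δ`, so `i k/6 < δ`, `i k < 6δ ≤ 6p/1000`. But
`i k > p/2 - 2 - 2δ` and `i k ≥ 2`: if `p ≥ 100` the first contradicts, if `p < 100` the second (`6p/1000 < 1`).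
(3) `k ≤ -1` is impossible: `u = -k`, `1 ≤ u < δ`. Let `i = ⌊p/(6u)⌋ ≥ 1`, `h = p - i`, `r = i u`. `r > p/6 - u ≥ p/6 - δ ≥ δ`; `i u + i ≤ p/3 ≤ p - δ`, so `r ≤ h - δ(1-X)`; and
`m (h - r) + r ≥ m (2p/3) ≥ p + m δ` (as `m ≥ 2`: `m (2/3 - 1/1000) ≥ 1`): contradiction to (*). So `k ∈ {0, 1}` or `(k, m) = (2, 2)`. -/
def S_N3 : Prop := ∀ (Q : Set (ℝ × ℝ)) (p : ℕ) (a b : ℤ) (X Y L : ℝ) (m : ℤ), 2 ≤ m → TrapQ Q m 1 → Diam Q p a b X Y L →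
  7 ≤ p → 1000 ≤ L → 0 ≤ X → X ≤ 1 → ((p : ℤ) ∣ a ∨ (p : ℤ) ∣ a - 1 ∨ (m = 2 ∧ (p : ℤ) ∣ a - 2))

/-- [N4] The unit square. Proof. `P` projects into the unit square, so by `PC3` and `[pair]` the column over each of the four corners `(i, j)` contains `z_{ij}, z_{ij} + 1`. Let `h = p - 1` and
`r ≡ h a`, `s ≡ h b` integers in `[0, p-1]`. Let `n₁₁ = min r s`, `n₁₀ = r - n₁₁`, `n₀₁ = s - n₁₁`, `n₀₀ = h - max r s` (all `≥ 0`, sum `h`). Let `Z = ∑ n_{ij} z_{ij}` and let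
`t ∈ [0, p-1]` with `Z + t ≡ h c`. The point `(1/h) ∑ n_{ij} (i, j, z_{ij} + t/h)` is in `P`, and `h` times it is `(r, s, Z + t)`. Contradiction. -/
def S_N4 : Prop := ∀ (P : Set (ℝ × ℝ × ℝ)) (p : ℕ) (a b c : ℤ), Convex ℝ P → PC3 P → Trap P 1 1 → 2 ≤ p → Crit3 P p a b c → False

/-- [N5] Proof. `a ≡ 0`: let `F = {(y, z) | (0, y, z) ∈ P}` (convex). `PC2 F`: an integer point of `P` of class `(0, b', c')` has first coordinate even and in `[0,1]`, so `0`.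
`Crit2 F p b c`: an integer point `(y, z)` of `h F` gives the integer point `(0, y, z)` of `h P`, and `0 ≡ h a`. So `[plane]` gives the contradiction. `a ≡ 1`: the same with
`F = {(y, z) | (1, y, z) ∈ P}` and the integer point `(h, y, z)` of `h P`, `h - h a` divisible by `p`. -/
def S_N5 : Prop := ∀ (P : Set (ℝ × ℝ × ℝ)) (p : ℕ) (a b c : ℤ), Convex ℝ P → PC3 P → (∀ v ∈ P, 0 ≤ v.1 ∧ v.1 ≤ 1) → p.Prime → 7 ≤ p →
  Crit3 P p a b c → ((p : ℤ) ∣ a ∨ (p : ℤ) ∣ a - 1) → False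

/-- [N6] `m = 2`, `n = 1`, `a ≡ 2`; then `b ≡ 0`. Proof. `δ = p/L`. (*) Let `i` be an integer with `δ ≤ i`, `0 < i`, `2 i ≤ p - δ`, and `s ≡ -i b`; then not `2δ ≤ s ≤ p - 2δ`. Indeed let `h = p - i`,
`r = p - 2i ≡ h a`, `lam = h - δ > 0`, `x = (r - δX)/lam`, `y = (s - δY)/lam`. `r ≥ δ ≥ δX`; `h - r = i ≥ δ ≥ δ(1-X)` so `x ≤ 1`; `Y ≤ 2 - X ≤ 2`, so `s ≥ 2δ ≥ δ Y`, `y ≥ 0`; and
`y ≤ 2 - x` iff `s - δY ≤ 2 h - 2δ - r + δX = p - 2δ + δX`, true since `s ≤ p - 2δ` and `Y ≥ 0`, `X ≥ 0`. So `(x,y) ∈ Q`, contradiction to `Diam` (for `s ≡ h b`).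
Small `p`, `2δ ≤ 1`: `i = 1` and the integer `s ∈ [0, p-1]`, `s ≡ -b`: (*) excludes `1 ≤ s ≤ p - 1`, so `s = 0` and `b ≡ 0`.
Large `p`, `2δ > 1` (so `p > 500`): Let `v ≡ b` be the integer with `-p/2 < v ≤ p/2`. For an integer `i` as in (*), `i v` is within `2δ` of a multiple of `p` (strictly: the residue `s ∈ [0,p)` of `-i b` is
`< 2δ` or `> p - 2δ`). Apply it to `i₀ = ⌈δ⌉` and `i₀ + 1`: `v` is within `4δ` of a multiple of `p`, so `|v| < 4δ` (as `|v| ≤ p/2`). Suppose `v ≠ 0` and let `k = ⌈4δ/|v|⌉`, so `4δ ≤ k |v| < 4δ + |v| < 8δ`,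
`k ≤ 4δ + 1`. Apply it to `i₀` and `i₀ + k` (`2 (i₀ + k) ≤ 2 (δ + 1 + 4δ + 1) ≤ p - δ`): `k v` is within (strictly) `4δ` of a multiple of `p`; but `4δ ≤ |k v| < 8δ ≤ p - 4δ`, so `|k v|` has distance
`≥ 4δ` to every multiple of `p`. Contradiction; so `v = 0`. -/
def S_N6 : Prop := ∀ (Q : Set (ℝ × ℝ)) (p : ℕ) (a b : ℤ) (X Y L : ℝ), TrapQ Q 2 1 → Diam Q p a b X Y L → 7 ≤ p → 1000 ≤ L →
  0 ≤ X → X ≤ 1 → 0 ≤ Y → Y ≤ 2 - X → (p : ℤ) ∣ a - 2 → (p : ℤ) ∣ b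

/-- [N7] The family. Proof. The integer points of `P` lie over `(0,0), (0,1), (0,2), (1,0), (1,1)`. By `PC3` and `[pair]` the columns over `(1,0)`, `(1,1)`, `(0,1)` contain consecutive integers `e, e+1`,
`f, f+1`, and some `d, d + 1` (each of these points is alone in its class modulo 2). `o ≡ (2, 0, c)`. `[only]` with `A = (2,0)`, `E = (1,0)`, `B = (0,0)`: the column over `(1,0)` is `{e, e+1}`, over `(0,0)` it is `{β}`, and
(`[edge]`) `c + β ≡ 2e + 1`. `[only]` with `A = (2,0)`, `E = (1,1)`, `B = (0,2)`: the column over `(1,1)` is `{f, f+1}`, over `(0,2)` it is `{γ}`, `c + γ ≡ 2f + 1`. So `C := γ - β - 2(f - e) ≡ 0`. By `PC3` there are integer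
points of `P` of the classes `(0,0,0)` and `(0,0,1)`; they are `(0,0,β)` and `(0,2,γ)`; so `γ - β` is odd and `C` is odd. The column over `(0,1)` is a finite interval `[s, t]` of integers (finite: `P` is bounded,
being the hull of a finite set; nonempty). `P` is the hull of a finite set `V` of integer points; each is one of `(0,0,β), (0,2,γ), (1,0,e), (1,0,e+1), (1,1,f), (1,1,f+1)`, `(0,1,k)` with `s ≤ k ≤ t`; the last ones are in the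
hull of `(0,1,s), (0,1,t)`. So `P` is the hull of the eight points. The affine map `(x, y, z) ↦ (x, y, z - β - (e - β) x - (f - e) y)` (inverse `z + β + ..`) preserves the integer points and sends the eight points to
`(0,0,0), (0,2,C), (1,0,0), (1,0,1), (1,1,0), (1,1,1), (0,1,s'), (0,1,t')` with `s' = s - β - (f - e)`, `t' = t - β - (f-e)`. -/
def S_N7 : Prop := ∀ (P : Set (ℝ × ℝ × ℝ)) (p : ℕ) (a b c : ℤ), IsLP3 P → PC3 P → Trap P 2 1 → 7 ≤ p → Crit3 P p a b c →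
  (p : ℤ) ∣ a - 2 → (p : ℤ) ∣ b → ∃ C s t : ℤ, Odd C ∧ (p : ℤ) ∣ C ∧ s ≤ t ∧ ZEq P (fam C s t)

/-- [zeq] `ZEq` is an equivalence relation. Proof: identity, inverse, composition of affine equivalences. -/
def S_zeq : Prop := (∀ P, ZEq P P) ∧ (∀ P P', ZEq P P' → ZEq P' P) ∧ (∀ P P' P'', ZEq P P' → ZEq P' P'' → ZEq P P'')

/-- [caseN] Proof. `[N0]` and `[vdmap]`: replace `P` by `P' = lift g '' P` with `VD P' p L`, `Trap P' m n`, `1 ≤ n ≤ m` (`ZEq P P'`). Let `Crit3 P' p a b c`, chord over `(X, Y)` (so `0 ≤ X ≤ 1`, `0 ≤ Y ≤ m - (m-n) X`), `Diam` by `[diam]`,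
`TrapQ` by `[trapq]`. `n ≥ 2`: `[N2]`, `[N5]`. `n = 1, m = 1`: `[N4]`. `n = 1, m ≥ 2`: `[N3]`; the first two alternatives contradict `[N5]`; in the last `m = 2`, `[N6]` gives `b ≡ 0` and `[N7]` the claim for `P'`; compose (`[zeq]`). -/
def S_caseN : Prop := ∀ (P : Set (ℝ × ℝ × ℝ)) (p : ℕ) (L : ℝ), VD P p L → p.Prime → 7 ≤ p → 1000 ≤ L → Strip (proj P) →
  ∃ C s t : ℤ, Odd C ∧ (p : ℤ) ∣ C ∧ s ≤ t ∧ ZEq P (fam C s t)

/-- [V] The vertical theorem. Proof: `[projlp]`, `[class2D]` for `proj P`, `[vdmap]`; then `[W]` (with `[diam]`; the chord point `(X, Y)` is in `proj P'`), `[caseD]`, `[caseN]`. -/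
def S_V : Prop := ∀ (P : Set (ℝ × ℝ × ℝ)) (p : ℕ) (L : ℝ), VD P p L → p.Prime → 7 ≤ p → 1000 ≤ L →
  ∃ C s t : ℤ, Odd C ∧ (p : ℤ) ∣ C ∧ s ≤ t ∧ ZEq P (fam C s t)

end Pool.Agent.Lib.MP_0bc52e_nt.LC
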