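import Pool.Agent.Lib.MP_0bc52e_nt.LC.Defs3

/-!
# Statements, part C: translation to `Fin 3 → ℝ`, long segments, finiteness, the final assembly

`[V]` etc. refer to `S_V` in `StmB.lean`.
-/

open scoped Pointwise
open MeasureTheory

namespace Pool.Agent.Lib.MP_0bc52e_nt.LC

/-! ## H. Coordinates -/

/-- [T3lp] Proof: `T3 P` is the image (or preimage) of `P` under the linear equivalence between `Fin 3 → ℝ` and `ℝ × ℝ × ℝ`; linear maps commute with `convexHull`, and a finite
set of integer vectors becomes a `Finset` of integer triples. -/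
def S_T3lp : Prop := ∀ P : Set (Fin 3 → ℝ), IsIntegerPolytope P → IsLP3 (T3 P)

/-- [T3crit] Proof: if `(u,v,w) ∈ T3 P` and `(x,y,z) = h (u,v,w)`, then `![x,y,z]` is in `(h:ℝ) • P`; use the criterion with `j = h` (`(a,b,c) = (o 0, o 1, o 2)`). -/
def S_T3crit : Prop := ∀ (P : Set (Fin 3 → ℝ)) (p : ℕ), Criterion P p → ∃ a b c : ℤ, Crit3 (T3 P) p a b c

/-- [T3pc] Proof: push the negation; `ip (x 0, x 1, x 2) ∈ T3 P` iff the cast of `x` is in `P`. -/
def S_T3pc : Prop := ∀ P : Set (Fin 3 → ℝ), ¬ Miss2 P → PC3 (T3 P)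

/-- [T3zeq] Proof: conjugate the affine equivalence with the linear equivalence between the two coordinate spaces; `fam c s t` corresponds to `famS c s t`. -/
def S_T3zeq : Prop := ∀ (P : Set (Fin 3 → ℝ)) (c s t : ℤ), ZEq (T3 P) (fam c s t) → IntegerEquivalent P (famS c s t)

/-- [five] Proof: `→`: take the cases `j = 3, 4` of the criterion. `←`: `j = 3, 4` given (all `0 < j < 5`); if `x ∈ 1 • P`, `x ≡ o`, then `4x ∈ 4 • P`, `4x ≡ 4o`; if
`x ∈ 2 • P`, `x ≡ 2o`, then `2x ∈ 4 • P`, `2x ≡ 4o`. -/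
def S_five : Prop := ∀ P : Set (Fin 3 → ℝ), Criterion P 5 ↔ Miss5 P

/-! ## I. Integer equivalence -/

/-- [eqvtrans] Proof: compose the two injective affine maps; `(g₂ ∘ g₁) '' P = F`. -/
def S_eqvtrans : Prop := ∀ (d N : ℕ) (P P' : Set (Fin d → ℝ)) (F : Set (Fin N → ℝ)), IntegerEquivalent P P' → IntegerEquivalent P' F →
  IntegerEquivalent P F

/-- [eqvsymm] Proof: an injective affine map of `ℝ^d` to itself is bijective (its linear part is an injective endomorphism of a finite dimensional space); the inverse is affine. Also the identity map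
gives reflexivity. -/
def S_eqvsymm : Prop := (∀ (d : ℕ) (P P' : Set (Fin d → ℝ)), IntegerEquivalent P P' → IntegerEquivalent P' P) ∧
  (∀ (d : ℕ) (P : Set (Fin d → ℝ)), IntegerEquivalent P P)

/-- [eqvip] Proof: the affine bijection `g` maps the hull of a finite set of integer points onto the hull of the image, which consists of integer points, and `affineSpan (g '' P) = g '' affineSpan P = ⊤`
(`AffineSubspace.map_span`, surjectivity). -/
def S_eqvip : Prop := ∀ (d : ℕ) (P P' : Set (Fin d → ℝ)), IntegerEquivalent P P' →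
  (IsIntegerPolytope P → IsIntegerPolytope P') ∧ (IsFullDimensional P → IsFullDimensional P')

/-- [occ] Proof: unfold `OccursAt`; the face `F` of the continued fraction that is integer equivalent to `P'` is integer equivalent to `P` by `[eqvtrans]`. -/
def S_occ : Prop := ∀ (d : ℕ) (P P' : Set (Fin d → ℝ)) (h : ℕ), IntegerEquivalent P P' → OccursAt P' h → OccursAt P h

/-! ## J. The family occurs -/

/-- [famcrit] Proof. `o = ![2, 0, 1]`. Let `M = |c| + |s| + |t| + 2` (real). All points `(x, y, z)` of `famS c s t` satisfy `0 ≤ x ≤ 1`, `0 ≤ y ≤ 2 - x`,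
`-M y ≤ z ≤ x + M y` and `c (1 - x) - M (2 - x - y) ≤ z ≤ c (1 - x) + x + M (2 - x - y)` (check at the eight points; the set defined by these linear inequalities is convex:
`convexHull_min`). Let `0 < j < h` and let the integer point `(x, y, z)` be in `j • famS c s t` and congruent to `(2j, 0, j)` modulo `h`. Then `0 ≤ x ≤ j`, `0 ≤ y ≤ 2j - x`, and the two
displays with `z`, homogenised: `-M y ≤ z ≤ x + M y`, `c (j - x) - M (2j - x - y) ≤ z ≤ c (j - x) + x + M (2j - x - y)`. `x ≡ 2j` and `0 ≤ x ≤ j < h` give `x = 2j - h` (`x = 2j - k h`, `k ≥ 1` because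
`x ≤ j < 2j`, and `k ≤ 1` because `2j - 2h < 0`). `h ∣ y` and `0 ≤ y ≤ 2j - x = h` give `y = 0` or `y = h`. If `y = 0`: `0 ≤ z ≤ x = 2j - h < j`, `z = j - k h` with `k ≥ 1`, so `z ≤ j - h < 0`, contradiction.
If `y = h`: `2j - x - y = 0`, so `z = c (h - j) + z'` with `0 ≤ z' ≤ 2j - h`, and `z' ≡ z ≡ j` because `h ∣ c`; the same contradiction. -/
def S_famcrit : Prop := ∀ (c s t : ℤ) (h : ℕ), (h : ℤ) ∣ c → Criterion (famS c s t) h

/-- [famint] Proof: the eight points are integer points. Full-dimensional: as in `famPoly_isFullDimensional` (file `Family.lean`): the affine span contains `(0,0,0), (1,0,0), (1,0,1), (1,1,0)`. -/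
def S_famint : Prop := ∀ c s t : ℤ, IsIntegerPolytope (famS c s t) ∧ IsFullDimensional (famS c s t)

/-! ## K. Long segments -/

/-- [dir] Make a lattice direction vertical. Proof. Let `N` be the submodule `ℤ v` of `Fin 3 → ℤ`. `Submodule.smithNormalForm` (`Pi.basisFun ℤ (Fin 3)`) gives a basis `b` of `Fin 3 → ℤ`, indexed by `Fin 3`, such
that `v = k • b i₀` for some index `i₀` and some integer `k ≠ 0` (every element of a basis of `N` is a multiple of some `b (f i)`, and `N` has rank one because `v ≠ 0`). Reindex so that `i₀` is the last index. Let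
`g` be the linear automorphism of `Fin 3 → ℝ` that maps (the cast of) `b i` to the `i`-th unit vector (the real matrix of the inverse of the integer change of basis matrix; both matrices are integer, so `g` preserves
integrality in both directions). Put `P' = g '' P`; it contains `y = g x` and `g x + L k e₂`. If `k > 0`, take `L' = L k ≥ L` and `(X, Y, Z) = y`; if `k < 0`, start at the other end, `L' = L |k|`. -/
def S_dir : Prop := ∀ (P : Set (Fin 3 → ℝ)) (L : ℝ), 0 < L → ∀ v : Fin 3 → ℤ, v ≠ 0 → ∀ x ∈ P, x + L • (fun i => (v i : ℝ)) ∈ P →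
  ∃ P' : Set (Fin 3 → ℝ), IntegerEquivalent P P' ∧ ∃ X Y Z L' : ℝ, L ≤ L' ∧ (X, Y, Z) ∈ T3 P' ∧ (X, Y, Z + L') ∈ T3 P'

/-- [mink] Proof. `P` is compact and convex. Let `K = {x | ∃ y ∈ P, ∃ z ∈ P, x = (1/1000) • (y - z)}`, convex, symmetric. For a fixed `z ∈ P`, `K` contains `(1/1000) • (P - z)`, so
`volume K ≥ 10^(-9) volume P > 8`. By Minkowski (`MeasureTheory.exists_ne_zero_mem_lattice_of_measure_mul_two_pow_lt_measure` for the lattice of integer vectors, fundamental domain the unit cube, of measure 1) `K` contains a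
nonzero integer vector `v`: `1000 v = y - z`, so `z + 1000 v = y ∈ P`. -/
def S_mink : Prop := ∀ P : Set (Fin 3 → ℝ), IsIntegerPolytope P → ENNReal.ofReal (8 * 10 ^ 9) < volume P → Long P

/-! ## L. Finitely many classes of bounded volume -/

/-- [F1] A maximal simplex. Proof. Over all `v₀ ∈ V` and triples `v₁, v₂, v₃ ∈ V` consider the matrix `W` with columns `v_j - v₀`. Some determinant is nonzero because the affine span is everything (otherwise all
differences `v - v₀` lie in a proper subspace: `exists_spanning` style argument, or: an affine basis can be chosen from the spanning set `V`: `exists_affineIndependent`/`AffineBasis`). Choose one with `|det W|` maximal (finite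
set). For `x ∈ V` let `n i = ` the determinant of `W` with column `i` replaced by `x - v₀` (Cramer: `Matrix.cramer`, `Matrix.mulVec_cramer : A.mulVec (A.cramer b) = A.det • b`). It is an integer and `|n i| ≤ |det W|` by
maximality. -/
def S_F1 : Prop := ∀ V : Finset (Fin 3 → ℤ), affineSpan ℝ ((fun v : Fin 3 → ℤ => (fun i => (v i : ℝ))) '' (V : Set (Fin 3 → ℤ))) = ⊤ →
  ∃ v₀ ∈ V, ∃ W : Matrix (Fin 3) (Fin 3) ℤ, W.det ≠ 0 ∧ (∀ j, (fun i => v₀ i + W i j) ∈ V) ∧
    ∀ x ∈ V, ∃ n : Fin 3 → ℤ, (∀ i, |n i| ≤ |W.det|) ∧ ∀ i, W.det * (x i - v₀ i) = W.mulVec n i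

/-- [F1vol] Proof: the parallelepiped `{v₀ + W t | t ∈ [0, 1/3]^3}` is contained in the simplex with vertices `v₀`, `v₀ + W e_j` (barycentric coordinates `t_j` and `1 - ∑ t_j ≥ 0`), so in `P`; its volume is `|det W|/27`
(`Real.map_linearMap_volume_pi_eq_smul_volume_pi` or `MeasureTheory.Measure.addHaar_image_linearMap`, translation invariance, `Real.volume_Icc_pi`). -/
def S_F1vol : Prop := ∀ (P : Set (Fin 3 → ℝ)) (v₀ : Fin 3 → ℤ) (W : Matrix (Fin 3) (Fin 3) ℤ), Convex ℝ P → (fun i => (v₀ i : ℝ)) ∈ P →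
  (∀ j, (fun i => ((v₀ i + W i j : ℤ) : ℝ)) ∈ P) → ENNReal.ofReal (|W.det| : ℤ) ≤ 27 * volume P

/-- [F2] Equal data give equivalent polytopes. Proof. Let `D = W.det = W'.det ≠ 0` and `g(x) = v₀' + W' W⁻¹ (x - v₀)`, an affine bijection of `ℝ³`. (Integrality) Let `x` be an integer point; `n = adj(W) (x - v₀)` is an integer vector
with `W n = D (x - v₀)`; by the hypothesis `hR` all entries of `W' n` are divisible by `D`, so `g(x) = v₀' + W' n / D` is an integer point. The inverse of `g` has the same form, so the converse holds. (Image) If `x ∈ V`, then the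
`n` of `hV` satisfies `W n = D (x - v₀)`, `|n i| ≤ |D|`, and `g(x) = v₀' + (W' n)/D`; by `hN` this is in `V'`: precisely `hN n` says: (`∃ x ∈ V`, `W n = D (x - v₀)`) iff (`∃ x' ∈ V'`, `W' n = D (x' - v₀')`). Same for the inverse. So
`g` maps the hull of `V` onto the hull of `V'`. -/
def S_F2 : Prop := ∀ (V V' : Finset (Fin 3 → ℤ)) (v₀ v₀' : Fin 3 → ℤ) (W W' : Matrix (Fin 3) (Fin 3) ℤ), W.det ≠ 0 → W'.det = W.det →
  (∀ n : Fin 3 → ℤ, (∀ i, W.det ∣ W.mulVec n i) ↔ (∀ i, W.det ∣ W'.mulVec n i)) →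
  (∀ x ∈ V, ∃ n : Fin 3 → ℤ, (∀ i, |n i| ≤ |W.det|) ∧ ∀ i, W.det * (x i - v₀ i) = W.mulVec n i) →
  (∀ x ∈ V', ∃ n : Fin 3 → ℤ, (∀ i, |n i| ≤ |W'.det|) ∧ ∀ i, W'.det * (x i - v₀' i) = W'.mulVec n i) →
  (∀ n : Fin 3 → ℤ, (∀ i, |n i| ≤ |W.det|) →
    ((∃ x ∈ V, ∀ i, W.det * (x i - v₀ i) = W.mulVec n i) ↔ (∃ x ∈ V', ∀ i, W'.det * (x i - v₀' i) = W'.mulVec n i))) →
  IntegerEquivalent (convexHull ℝ ((fun v : Fin 3 → ℤ => (fun i => (v i : ℝ))) '' (V : Set (Fin 3 → ℤ))))
    (convexHull ℝ ((fun v : Fin 3 → ℤ => (fun i => (v i : ℝ))) '' (V' : Set (Fin 3 → ℤ))))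

/-- [fin] Proof. Let `K` be a natural number `≥ 27 B`. For an integer polytope `P`, full-dimensional, of volume `≤ B`, write `P` as the hull of a `Finset` `V` and take `v₀, W` from `[F1]`; by `[F1vol]` `1 ≤ |det W| ≤ K`. Its data are: the
integer `D = det W ∈ [-K, K]`; the set `R` of `m ∈ {0,...,K}³` such that `D` divides all entries of `W m`; the set `N` of `n ∈ {-K,...,K}³` such that `∃ x ∈ V`, `W n = D (x - v₀)`. The data lie in a finite type/set
(`Finset.Icc` and powersets). Equal data imply the hypotheses of `[F2]`: for the divisibility condition reduce `n` modulo `|D|` to a vector `m ∈ {0,..,|D|-1}³ ⊆ {0,...,K}³` (`W n ≡ W m` modulo `D`). So the map from polytopes to data has the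
property that equal data give integer equivalent polytopes; choose one polytope for each of the finitely many values taken. (E.g. `Set.Finite.exists_finset...`, or: the image of the class of polytopes under the data map is a finite set; take `𝓕` to be the image of
this finite set under a choice function.) Members of `𝓕` are themselves polytopes of the class. -/
def S_fin : Prop := ∀ B : ℝ, ∃ F : Set (Set (Fin 3 → ℝ)), F.Finite ∧
  (∀ P ∈ F, IsIntegerPolytope P ∧ IsFullDimensional P ∧ volume P ≤ ENNReal.ofReal B) ∧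
  ∀ P : Set (Fin 3 → ℝ), IsIntegerPolytope P → IsFullDimensional P → volume P ≤ ENNReal.ofReal B → ∃ P' ∈ F, IntegerEquivalent P P'

/-! ## M. Assembly -/

/-- [long] Long polytopes. Proof. `←`: `Miss2`, `Miss3`, `Miss5` give the criterion for `2`, `3`, `5` (`criterion_two_iff`, `criterion_three_iff`, `[five]`), so `OccursAt` by `Criterion.occursAt`; `InFam`: `famS c s t` occurs at `h = |c|` (`[famcrit]`, `[famint]`,
`Criterion.occursAt`), so `P` does by `[occ]`. `→`: let `OccursAt P h`, `h > 1`, and suppose `¬ Miss2 P`, `¬ Miss3 P`, `¬ Miss5 P`. The criterion holds for `h` (`OccursAt.weak`, `OccursWeaklyAt.criterion`), hence (`Criterion.of_mul`) for a prime `p ∣ h`, and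
`p ≠ 2, 3, 5`, so `p ≥ 7`. By `[dir]` with `L = 1000` there is `P'` integer equivalent to `P` with a vertical chord of length `L' ≥ 1000`. `P'` is an integer polytope, full-dimensional (`[eqvip]`); `OccursAt P p` (`Criterion.occursAt`) gives `OccursAt P' p` (`[occ]`,
`[eqvsymm]`), so `Criterion P' p`; `¬ Miss2 P'` (else `Criterion P' 2`, `OccursAt P' 2`, `OccursAt P 2`, `Criterion P 2`, `Miss2 P`). So `VD (T3 P') p L'` by `[T3lp]`, `[T3pc]`, `[T3crit]`, and `[V]` gives `ZEq (T3 P') (fam C s t)` with `C` odd, `p ∣ C`, so `|C| ≥ 7`.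
`[T3zeq]`, `[eqvtrans]` finish. -/
def S_long : Prop := ∀ P : Set (Fin 3 → ℝ), IsIntegerPolytope P → IsFullDimensional P → Long P →
  ((∃ h : ℕ, 1 < h ∧ OccursAt P h) ↔ Miss2 P ∨ Miss3 P ∨ Miss5 P ∨ InFam P)

/-- [main] The classification up to finitely many polytopes. Proof. Let `F₀` be the finite set of `[fin]` for `B = 8 * 10^9` and `F` the set of its members that occur at some `h > 1`. `→`: if `volume P > B`, then `Long P` by `[mink]` and `[long]` applies; otherwise `P` is integer
equivalent to some `P' ∈ F₀`, and `P'` occurs by `[occ]`, `[eqvsymm]`, so `P' ∈ F`. `←`: the first four alternatives as in `[long]` (its `←` part does not use `Long`; prove it again or separately), the last one by `[occ]`. -/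
def S_main : Prop := ∃ F : Set (Set (Fin 3 → ℝ)), F.Finite ∧
  (∀ P ∈ F, IsIntegerPolytope P ∧ IsFullDimensional P ∧ volume P ≤ ENNReal.ofReal (8 * 10 ^ 9)) ∧
  ∀ P : Set (Fin 3 → ℝ), IsIntegerPolytope P → IsFullDimensional P →
    ((∃ h : ℕ, 1 < h ∧ OccursAt P h) ↔ Miss2 P ∨ Miss3 P ∨ Miss5 P ∨ InFam P ∨ ∃ P' ∈ F, IntegerEquivalent P P')

end Pool.Agent.Lib.MP_0bc52e_nt.LC
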