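import Pool.Agent.Lib.MP_0bc52e_nt.LC.P.res
import Pool.Agent.Lib.MP_0bc52e_nt.LC.P.um
import Pool.Agent.Lib.MP_0bc52e_nt.LC.P.umconv
import Pool.Agent.Lib.MP_0bc52e_nt.LC.P.tri
import Pool.Agent.Lib.MP_0bc52e_nt.LC.P.fourth
import Pool.Agent.Lib.MP_0bc52e_nt.LC.P.SW
import Pool.Agent.Lib.MP_0bc52e_nt.LC.P.row
import Pool.Agent.Lib.MP_0bc52e_nt.LC.P.row2
import Pool.Agent.Lib.MP_0bc52e_nt.LC.P.pairs
import Pool.Agent.Lib.MP_0bc52e_nt.LC.P.S4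
import Pool.Agent.Lib.MP_0bc52e_nt.LC.P.D2
import Pool.Agent.Lib.MP_0bc52e_nt.LC.P.class2D
import Pool.Agent.Lib.MP_0bc52e_nt.LC.P.vdmap
import Pool.Agent.Lib.MP_0bc52e_nt.LC.P.projlp
import Pool.Agent.Lib.MP_0bc52e_nt.LC.P.face
import Pool.Agent.Lib.MP_0bc52e_nt.LC.P.diam
import Pool.Agent.Lib.MP_0bc52e_nt.LC.P.diammap
import Pool.Agent.Lib.MP_0bc52e_nt.LC.P.W1
import Pool.Agent.Lib.MP_0bc52e_nt.LC.P.W2
import Pool.Agent.Lib.MP_0bc52e_nt.LC.P.W7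
import Pool.Agent.Lib.MP_0bc52e_nt.LC.P.Wr
import Pool.Agent.Lib.MP_0bc52e_nt.LC.P.W
import Pool.Agent.Lib.MP_0bc52e_nt.LC.P.crit2map
import Pool.Agent.Lib.MP_0bc52e_nt.LC.P.plane
import Pool.Agent.Lib.MP_0bc52e_nt.LC.P.pair
import Pool.Agent.Lib.MP_0bc52e_nt.LC.P.col
import Pool.Agent.Lib.MP_0bc52e_nt.LC.P.edge
import Pool.Agent.Lib.MP_0bc52e_nt.LC.P.edge2
import Pool.Agent.Lib.MP_0bc52e_nt.LC.P.only
import Pool.Agent.Lib.MP_0bc52e_nt.LC.P.Dsmall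
import Pool.Agent.Lib.MP_0bc52e_nt.LC.P.Dlarge
import Pool.Agent.Lib.MP_0bc52e_nt.LC.P.Dvert
import Pool.Agent.Lib.MP_0bc52e_nt.LC.P.caseD
import Pool.Agent.Lib.MP_0bc52e_nt.LC.P.N0
import Pool.Agent.Lib.MP_0bc52e_nt.LC.P.trapq
import Pool.Agent.Lib.MP_0bc52e_nt.LC.P.Nx
import Pool.Agent.Lib.MP_0bc52e_nt.LC.P.N2
import Pool.Agent.Lib.MP_0bc52e_nt.LC.P.N3
import Pool.Agent.Lib.MP_0bc52e_nt.LC.P.N4
import Pool.Agent.Lib.MP_0bc52e_nt.LC.P.N5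
import Pool.Agent.Lib.MP_0bc52e_nt.LC.P.N6
import Pool.Agent.Lib.MP_0bc52e_nt.LC.P.N7
import Pool.Agent.Lib.MP_0bc52e_nt.LC.P.zeq
import Pool.Agent.Lib.MP_0bc52e_nt.LC.P.caseN
import Pool.Agent.Lib.MP_0bc52e_nt.LC.P.V
import Pool.Agent.Lib.MP_0bc52e_nt.LC.P.T3lp
import Pool.Agent.Lib.MP_0bc52e_nt.LC.P.T3crit
import Pool.Agent.Lib.MP_0bc52e_nt.LC.P.T3pc
import Pool.Agent.Lib.MP_0bc52e_nt.LC.P.T3zeq
import Pool.Agent.Lib.MP_0bc52e_nt.LC.P.five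
import Pool.Agent.Lib.MP_0bc52e_nt.LC.P.eqvtrans
import Pool.Agent.Lib.MP_0bc52e_nt.LC.P.eqvsymm
import Pool.Agent.Lib.MP_0bc52e_nt.LC.P.eqvip
import Pool.Agent.Lib.MP_0bc52e_nt.LC.P.occ
import Pool.Agent.Lib.MP_0bc52e_nt.LC.P.famcrit
import Pool.Agent.Lib.MP_0bc52e_nt.LC.P.famint
import Pool.Agent.Lib.MP_0bc52e_nt.LC.P.dir
import Pool.Agent.Lib.MP_0bc52e_nt.LC.P.mink
import Pool.Agent.Lib.MP_0bc52e_nt.LC.P.F1
import Pool.Agent.Lib.MP_0bc52e_nt.LC.P.F1vol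
import Pool.Agent.Lib.MP_0bc52e_nt.LC.P.F2
import Pool.Agent.Lib.MP_0bc52e_nt.LC.P.fin
import Pool.Agent.Lib.MP_0bc52e_nt.LC.P.long
import Pool.Agent.Lib.MP_0bc52e_nt.LC.P.main

/-!
Assembly of the pieces: the classification of the three-dimensional faces of sails at integer
distance greater than one, up to finitely many polytopes (`S_main`), and the vertical theorem (`S_V`).
-/

namespace Pool.Agent.Lib.MP_0bc52e_nt.LC

lemma q_res : S_res := p_res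
lemma q_um : S_um := p_um
lemma q_umconv : S_umconv := p_umconv q_um
lemma q_tri : S_tri := p_tri
lemma q_fourth : S_fourth := p_fourth q_um q_umconv
lemma q_SW : S_SW := p_SW q_um q_umconv q_tri q_fourth
lemma q_row : S_row := p_row
lemma q_row2 : S_row2 := p_row2 q_um q_umconv
lemma q_pairs : S_pairs := p_pairs
lemma q_S4 : S_S4 := p_S4 q_um q_umconv q_row q_row2 q_pairs
lemma q_D2 : S_D2 := p_D2 q_um q_umconv q_row q_row2 q_pairs
lemma q_class2D : S_class2D := p_class2D q_um q_umconv q_SW q_S4 q_D2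
lemma q_vdmap : S_vdmap := p_vdmap q_um
lemma q_projlp : S_projlp := p_projlp
lemma q_face : S_face := p_face
lemma q_diam : S_diam := p_diam q_res
lemma q_diammap : S_diammap := p_diammap
lemma q_W1 : S_W1 := p_W1 q_res
lemma q_W2 : S_W2 := p_W2
lemma q_W7 : S_W7 := p_W7
lemma q_Wr : S_Wr := p_Wr q_res
lemma q_W : S_W := p_W q_diammap q_W1 q_W2 q_W7 q_Wr
lemma q_crit2map : S_crit2map := p_crit2map q_um
lemma q_plane : S_plane := p_plane q_res q_SW q_umconv q_crit2map q_W7 q_Wr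
lemma q_pair : S_pair := p_pair
lemma q_col : S_col := p_col q_res
lemma q_edge : S_edge := p_edge q_res
lemma q_edge2 : S_edge2 := p_edge2 q_edge
lemma q_only : S_only := p_only q_edge
lemma q_Dsmall : S_Dsmall := p_Dsmall q_res
lemma q_Dlarge : S_Dlarge := p_Dlarge q_res
lemma q_Dvert : S_Dvert := p_Dvert q_pair q_only q_edge2
lemma q_caseD : S_caseD := p_caseD q_projlp q_face q_diam q_Dsmall q_Dlarge q_pair q_col q_Dvert
lemma q_N0 : S_N0 := p_N0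
lemma q_trapq : S_trapq := p_trapq
lemma q_Nx : S_Nx := p_Nx q_res
lemma q_N2 : S_N2 := p_N2 q_res q_Nx
lemma q_N3 : S_N3 := p_N3 q_res q_Nx
lemma q_N4 : S_N4 := p_N4 q_res q_pair
lemma q_N5 : S_N5 := p_N5 q_plane
lemma q_N6 : S_N6 := p_N6
lemma q_N7 : S_N7 := p_N7 q_pair q_edge q_only
lemma q_zeq : S_zeq := p_zeq
lemma q_caseN : S_caseN := p_caseN q_N0 q_vdmap q_projlp q_diam q_trapq q_N2 q_N3 q_N4 q_N5 q_N6 q_N7 q_zeq
lemma q_V : S_V := p_V q_projlp q_class2D q_vdmap q_diam q_W q_caseD q_caseN q_zeq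
lemma q_T3lp : S_T3lp := p_T3lp
lemma q_T3crit : S_T3crit := p_T3crit
lemma q_T3pc : S_T3pc := p_T3pc
lemma q_T3zeq : S_T3zeq := p_T3zeq
lemma q_five : S_five := p_five
lemma q_eqvtrans : S_eqvtrans := p_eqvtrans
lemma q_eqvsymm : S_eqvsymm := p_eqvsymm
lemma q_eqvip : S_eqvip := p_eqvip
lemma q_occ : S_occ := p_occ q_eqvtrans
lemma q_famcrit : S_famcrit := p_famcrit
lemma q_famint : S_famint := p_famint
lemma q_dir : S_dir := p_dir
lemma q_mink : S_mink := p_mink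
lemma q_F1 : S_F1 := p_F1
lemma q_F1vol : S_F1vol := p_F1vol
lemma q_F2 : S_F2 := p_F2
lemma q_fin : S_fin := p_fin q_F1 q_F1vol q_F2
lemma q_long : S_long := p_long q_five q_eqvtrans q_eqvsymm q_eqvip q_occ q_famcrit q_famint q_dir q_T3lp q_T3pc q_T3crit q_V q_T3zeq
lemma q_main : S_main := p_main q_fin q_mink q_long q_occ q_eqvsymm q_five q_famcrit q_famint

end Pool.Agent.Lib.MP_0bc52e_nt.LC
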