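import Pool.Agent.Lib.MP_0bc52e_nt.LC.Defs

/-!
# Statements, part A: lattice polygons, and the triangle case

Classification of three-dimensional faces of sails up to finitely many polytopes (MP_0bc52e_nt).
Every `S_xx : Prop` is one piece, with a complete proof in words; the pieces it needs are
hypotheses of the theorem to be proved (see the request).

Conventions. `r ≡ s` always means `(p : ℤ) ∣ r - s`. For real `α` and integer `t` there is exactly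
one integer `r ≡ t` with `α ≤ r < α + p` (piece `S_res`).
-/

namespace Pool.Agent.Lib.MP_0bc52e_nt.LC

/-! ## A. Small tools -/

/-- [res] A residue in a half-open interval of length `p`.
Proof: `r = ⌈α⌉ + (t - ⌈α⌉) % p`; `0 ≤ (t - ⌈α⌉) % p ≤ p - 1` and `⌈α⌉ < α + 1`. -/
def S_res : Prop := ∀ p : ℕ, 0 < p → ∀ (t : ℤ) (α : ℝ),
  ∃ r : ℤ, (p : ℤ) ∣ r - t ∧ α ≤ (r : ℝ) ∧ (r : ℝ) < α + p

/-- [um] The maps `IsUM` form a group containing the standard ones. Proof: for a composition multiply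
the matrices (the determinant is multiplicative: `ring`), for the inverse of `(a,b,c,d,e,f)` with
`D = a d - b c = ±1` take the matrix `(D d, -D b, -D c, D a)` (note `D * D = 1`) and the translation
`(-(D d e - D b f), -(-D c e + D a f))`. -/
def S_um : Prop :=
  (∀ g₁ g₂ : ℝ × ℝ → ℝ × ℝ, IsUM g₁ → IsUM g₂ → IsUM (g₂ ∘ g₁)) ∧
  (∀ g : ℝ × ℝ → ℝ × ℝ, IsUM g → ∃ g' : ℝ × ℝ → ℝ × ℝ, IsUM g' ∧ (∀ v, g' (g v) = v) ∧ (∀ v, g (g' v) = v)) ∧
  IsUM id

/-- [umconv] Images under `IsUM` maps: convexity, integer polygons, and parity classes are preserved.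
Proof: `g` is an affine map (write it as `AffineMap` or check convexity by hand: `g (s v + t w) =
s g v + t g w` if `s + t = 1`). For integer polygons: `g '' convexHull = convexHull (g '' ..)`
(`AffineMap.image_convexHull`) and `g (ip2 v) = ip2 (..)`. For `PC2`: given a class `(a', b')`
modulo 2, the matrix is invertible modulo 2, so some class `(a, b)` is mapped to it: use the inverse
map `g'` of `[um]`, which sends integer points to integer points: take `(a, b)` = `g' (a', b')`. -/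
def S_umconv : Prop := ∀ g : ℝ × ℝ → ℝ × ℝ, IsUM g → ∀ Q : Set (ℝ × ℝ),
  (Convex ℝ Q → Convex ℝ (g '' Q)) ∧ (IsLP2 Q → IsLP2 (g '' Q)) ∧ (PC2 Q → PC2 (g '' Q))

/-! ## B. Convex sets of the plane whose integer points meet all classes modulo 2 -/

/-- [tri] A convex set with all four classes contains a unimodular triangle. Proof: let
`det(A,B,C) = (B-A) x (C-A)` for integer points `A, B, C` of `Q`. Some value is nonzero: the points of
`Q` in the four classes are not collinear, because `det` modulo 2 of points of classes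
`(0,0), (1,0), (0,1)` is `1`. Take `A, B, C` in `Q` with `|det| = D` minimal among the nonzero values
(`Nat.find` / well-founded minimum of `natAbs`). Claim `D = 1`. Put `u = B - A`, `w = C - A`. For an
integer vector `x` the coordinates in the basis `u, w` are `s = det(x,w)/det(u,w)`, `t = det(u,x)/det(u,w)`.
If `D ≥ 2`, then not all four numbers `u₁, u₂, w₁, w₂` are divisible by `D` (else `D² ∣ D`), so one of
the unit vectors `x` has `D ∤ det(x,w)` or `D ∤ det(u,x)`. Replace `x` by `x - ⌊s⌋ u - ⌊t⌋ w`, so that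
`0 ≤ s, t < 1`, not both `0`, and `X = A + x` is an integer point. If `s + t ≤ 1`, then `X` is in the
triangle `ABC`, hence in `Q`, and `|det(A,B,X)| = t D`, `|det(A,X,C)| = s D` are `< D` and not both zero:
contradiction to minimality. If `s + t > 1`, use `X' = B + C - X = A + (1-s) u + (1-t) w` in the same way
(`s + t > 1` forces `s, t ∈ (0,1)`, so `1 - s, 1 - t ∈ (0,1)` and `(1-s)+(1-t) < 1`). Finally exchange
`B` and `C` if the determinant is `-1`. -/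
def S_tri : Prop := ∀ Q : Set (ℝ × ℝ), Convex ℝ Q → PC2 Q →
  ∃ a₁ a₂ b₁ b₂ c₁ c₂ : ℤ, ip2 (a₁, a₂) ∈ Q ∧ ip2 (b₁, b₂) ∈ Q ∧ ip2 (c₁, c₂) ∈ Q ∧
    (b₁ - a₁) * (c₂ - a₂) - (b₂ - a₂) * (c₁ - a₁) = 1

/-- [fourth] Triangle `(0,0), (1,0), (0,1)` plus a point `(a, b)` of the fourth class. Proof by strong induction on
`|a| + |b|` (for all `Q` at the same time). Note that `c := 1 - a - b` is odd too.
Case 1: `a ≥ 1` and `b ≥ 1`. Then `(1,1) = ((b-1)/(a+b-1)) (1,0) + ((a-1)/(a+b-1)) (0,1) + (1/(a+b-1)) (a,b)` is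
in `Q`, so `S4 Q`, `g = id`.
Case 2: `a ≤ -1`, `b ≤ -1`. If `a = b = -1`: `W3 Q`. If `a = b = -m`, `m ≥ 3`: `(-1,-1) = (1/m)(a,b) + (1-1/m)(0,0)` is in
`Q`. If `a < b` (so `|a| ≥ |b| + 2`): `(-1, 0) = α(1,0) + β(0,1) + γ(a,b) + δ(0,0)` with `γ = 1/|a|`... precisely
`γ = 1/|a|`, `β = |b|/|a|`, `α = 0`, `δ = 1 - (1+|b|)/|a| ≥ 0`, so `(-1,0) ∈ Q`. Apply the map
`g₁(x,y) = (x + 1 - y, y)` (it sends `(-1,0) ↦ (0,0)`, `(0,0) ↦ (1,0)`, `(0,1) ↦ (0,1)`, `(a,b) ↦ (a+1-b, b)`):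
`g₁ '' Q` contains `(0,0),(1,0),(0,1)` and `(a+1-b, b)`; both coordinates odd, `a + 1 - b ≤ -1`,
`|a+1-b| + |b| = |a| - 1 < |a| + |b|`; induction. If `b < a`: apply the swap `(x,y) ↦ (y,x)` first (the sum
`|a| + |b|` does not change; treat this case before by symmetry: prove case `a < b` for all `Q`, then swap).
Case 3: exactly one of `a, b` is `≥ 1` and the other `≤ -1`. Then use a symmetry of the triangle
`(0,0),(1,0),(0,1)` that permutes the three barycentric coordinates `(c, a, b)` (`c = 1-a-b`, vertices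
`(0,0), (1,0), (0,1)`). Say `a ≥ 1 > b`. If `c ≥ 1`: the map `(x,y) ↦ (x, 1-x-y)` (fixes `(1,0)`, exchanges `(0,0)`
and `(0,1)`) gives the point `(a, c)` with both `≥ 1`: case 1. If `c ≤ -1`: the map `(x,y) ↦ (1-x-y, y)`
(exchanges `(0,0)` and `(1,0)`) gives the point `(c, b)`, both `≤ -1`: case 2 (so the induction should be over a
measure for case 2 only: first prove case 2 for all `Q` by induction on `|a| + |b|`, then cases 1 and 3 directly).
`b ≥ 1 > a` is symmetric. -/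
def S_fourth : Prop := ∀ Q : Set (ℝ × ℝ), Convex ℝ Q →
  ip2 (0, 0) ∈ Q → ip2 (1, 0) ∈ Q → ip2 (0, 1) ∈ Q → ∀ a b : ℤ, Odd a → Odd b → ip2 (a, b) ∈ Q →
  ∃ g : ℝ × ℝ → ℝ × ℝ, IsUM g ∧ (W3 (g '' Q) ∨ S4 (g '' Q))

/-- [SW] Proof: by `[tri]` there is a unimodular triangle `A, B, C`; let `g₁` be the `IsUM` map with
`g₁ A = (0,0)`, `g₁ B = (1,0)`, `g₁ C = (0,1)` (inverse of `(x,y) ↦ A + x (B-A) + y (C-A)`, by `[um]`). `g₁ '' Q`
is convex and `PC2` by `[umconv]`, so it has a point `(a,b)` with `a, b` odd. Apply `[fourth]` and compose. -/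
def S_SW : Prop := ∀ Q : Set (ℝ × ℝ), Convex ℝ Q → PC2 Q →
  ∃ g : ℝ × ℝ → ℝ × ℝ, IsUM g ∧ (W3 (g '' Q) ∨ S4 (g '' Q))

/-- [row] Proof: if `b = 2` nothing to do. Let `b ≥ 3`. Points of `Q` at height `2`: for `x ∈ [0,1]` the point
`(1 - s) (x, 1) + s (a, b)` with `s = 1/(b-1)`, i.e. all `(t, 2)` with `t` in the interval
`[s a, s a + (1 - s)]`, of length `(b-2)/(b-1)`. Let `a' = ⌈a/(b-1)⌉`; since `a/(b-1)` is a multiple of `1/(b-1)`,
`a' - a/(b-1) ≤ (b-2)/(b-1)`. So `(a', 2) ∈ Q`. (Integer form: `(b-1) a' - a ∈ {0, ..., b-2}`.) -/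
def S_row : Prop := ∀ Q : Set (ℝ × ℝ), Convex ℝ Q → S4 Q → ∀ a b : ℤ, 2 ≤ b → ip2 (a, b) ∈ Q →
  ∃ a' : ℤ, ip2 (a', 2) ∈ Q

/-- [row2] Proof. First `a ≥ 2`. Put `m = a / 2` (floor), `k = 2 m + 1 - a ∈ {0, 1}` (`1` if `a` is even, `0` if odd), `m ≥ 1`.
The points of `Q` at height `1` contain all `(x, 1)` with `0 ≤ x ≤ (1 + a)/2` (segment from `(0,1)` to the midpoint of `(1,0)`
and `(a,2)`). So `(m, 1) ∈ Q` and `(m-1, 1) ∈ Q`. The three points `(a,2), (m-1,1), (k,0)` of `Q` have sum `(3m, 3)`,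
so with `B = (a - m, 1)`, `C = (-1, 0)`, `D = (k - m, -1)` (differences to `(m,1)`) we have `B + C + D = 0` and
`det(C, B) = -1 * 1 - 0 = -1`. The map `g` with `g (m,1) = 0`, `g (m,1)+B ↦ (1,0)`, `g ((m,1)+C) = (0,1)` is `IsUM` and maps the
third point to `(-1,-1)`. Explicitly `g (x, y) = (y - 1, -(x - m) + (a - m) (y - 1))`: check `B ↦ (1, -(a-m)+(a-m)) = (1,0)`,
`C ↦ (0, 1)`, `D ↦ (-1, -(k-m) - (a-m)) = (-1, 2m - a - k) = (-1,-1)`. Second, `a ≤ -1`: apply the reflection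
`(x, y) ↦ (1 - x, y)`, which preserves `S4`, and the first case with `1 - a ≥ 2`. -/
def S_row2 : Prop := ∀ Q : Set (ℝ × ℝ), Convex ℝ Q → S4 Q → ∀ a : ℤ, ip2 (a, 2) ∈ Q → a ≠ 0 → a ≠ 1 →
  ∃ g : ℝ × ℝ → ℝ × ℝ, IsUM g ∧ W3 (g '' Q)

/-- [pairs] Proof. In each case three points of `Q` are named with an integer centroid `G`, and a map `g` (`IsUM`) that sends `G` to
`(0,0)` and the three points to `(1,0), (0,1), (-1,-1)` in some order. If `(2,1) ∈ Q`: points `(0,2), (2,1), (1,0)`, `G = (1,1)`,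
`g (x,y) = (y - 1, x + y - 2)`. If `(-1,0) ∈ Q`: points `(0,2), (-1,0), (1,1)`, `G = (0,1)`, `g (x,y) = (y - 1, x)`. If `(-1,1) ∈ Q`: points
`(0,2), (-1,1), (1,0)`, `G = (0,1)`, `g (x,y) = (y - 1, -x)`. -/
def S_pairs : Prop := ∀ Q : Set (ℝ × ℝ), S4 Q → ip2 (0, 2) ∈ Q →
  (ip2 (2, 1) ∈ Q ∨ ip2 (-1, 0) ∈ Q ∨ ip2 (-1, 1) ∈ Q) →
  ∃ g : ℝ × ℝ → ℝ × ℝ, IsUM g ∧ W3 (g '' Q)

/-- [S4] Proof. Suppose some integer point `(a₁,b₁)` of `Q` has `b₁ ≤ -1` or `b₁ ≥ 2` and some integer point `(a₂,b₂)` has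
`a₂ ≤ -1` or `a₂ ≥ 2` (otherwise one of the middle alternatives holds). The reflections `(x,y) ↦ (1-x,y)`, `(x,y) ↦ (x,1-y)`
preserve `S4`, convexity, and map integer points to integer points; so (compose) we may assume `b₁ ≥ 2`; by `[row]`
`(a', 2) ∈ Q` for some integer `a'`; by `[row2]` we are done unless `a' ∈ {0, 1}`, and after a reflection in `x` we may assume
`(0, 2) ∈ Q`. The same for columns (swap `x, y`): there is an integer point `(2, b')` or `(-1, b')` in `Q` (apply `[row]` to the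
swapped, possibly reflected set: if `a₂ ≤ -1` reflect `x ↦ 1 - x` first, giving a point in column `2` of the reflected set, i.e.
column `-1` of `Q`), and `[row2]` (swapped) finishes unless `b' ∈ {0, 1}`. So one of `(2,0), (2,1), (-1,0), (-1,1)` is in `Q`;
in the last three cases `[pairs]` finishes, in the first case the last alternative holds. Compose with the maps used
(`[um]`); `W3 (g '' (g₁ '' Q))` is `W3 ((g ∘ g₁) '' Q)` by `Set.image_comp`. -/
def S_S4 : Prop := ∀ Q : Set (ℝ × ℝ), Convex ℝ Q → S4 Q →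
  (∃ g : ℝ × ℝ → ℝ × ℝ, IsUM g ∧ W3 (g '' Q)) ∨
  (∀ x y : ℤ, ip2 (x, y) ∈ Q → 0 ≤ y ∧ y ≤ 1) ∨ (∀ x y : ℤ, ip2 (x, y) ∈ Q → 0 ≤ x ∧ x ≤ 1) ∨
  (∃ g : ℝ × ℝ → ℝ × ℝ, IsUM g ∧ S4 (g '' Q) ∧ ip2 (0, 2) ∈ g '' Q ∧ ip2 (2, 0) ∈ g '' Q)

/-- [D2] Proof. Column `-1`: if an integer point `(-1, b)` is in `Q`, then `b ∉ {0,1}` is covered by `[row2]` for the image of `Q`
under `(x,y) ↦ (y, 1-x)` (which preserves `S4` and sends `(-1,b)` to `(b, 2)`), `b ∈ {0,1}` by `[pairs]`. If `a ≤ -1`: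
apply `[row]` to the image under the same map (`(a,b) ↦ (b, 1-a)`, `1 - a ≥ 2`): we get an integer point in column `-1` of `Q`; done.
If `b ≤ -1`: swap the coordinates (the hypotheses are symmetric). If `a, b ≥ 0` and `a + b ≥ 3`: apply `(x,y) ↦ (2-x-y, y)`, an
`IsUM` map that permutes the points `(0,0) ↔ (2,0)`, fixes `(0,2)`, and maps `S4` points as follows: the image `Q'` contains
`(2,0),(0,0),(0,2)` hence (convexity) `(1,0), (0,1), (1,1)`, so `S4 Q'` and `(0,2),(2,0) ∈ Q'`, and the image `(2-a-b, b)` has first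
coordinate `≤ -1`: done by the first case. -/
def S_D2 : Prop := ∀ Q : Set (ℝ × ℝ), Convex ℝ Q → S4 Q → ip2 (0, 2) ∈ Q → ip2 (2, 0) ∈ Q →
  ∀ a b : ℤ, ip2 (a, b) ∈ Q → (a ≤ -1 ∨ b ≤ -1 ∨ 3 ≤ a + b) →
  ∃ g : ℝ × ℝ → ℝ × ℝ, IsUM g ∧ W3 (g '' Q)

/-- [class2D] Classification. Proof: `[SW]` gives `g₁` with `W3` (done) or `S4` of `Q₁ = g₁ '' Q` (an integer polygon, `PC2`, by
`[umconv]`). Apply `[S4]` to `Q₁`. If all integer points of `Q₁` satisfy `0 ≤ x ≤ 1`, then so does `Q₁`, the convex hull of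
(some of) its integer points. If they satisfy `0 ≤ y ≤ 1`, swap. In the last case let `Q₂ = g '' Q₁`; either all integer
points `(a,b)` of `Q₂` satisfy `0 ≤ a, 0 ≤ b, a + b ≤ 2`, then `Dl Q₂` (`Q₂` is the hull of integer points), or `[D2]` applies. -/
def S_class2D : Prop := ∀ Q : Set (ℝ × ℝ), IsLP2 Q → PC2 Q →
  ∃ g : ℝ × ℝ → ℝ × ℝ, IsUM g ∧ (W3 (g '' Q) ∨ Dl (g '' Q) ∨ Strip (g '' Q))

/-! ## C. From space to the plane -/

/-- [vdmap] Proof. `lift g` is an affine automorphism of `ℝ × ℝ × ℝ` given by an integer matrix of determinant `±1` (its inverse is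
`lift g'`, `g'` the inverse of `g` from `[um]`); it maps integer points to integer points in both directions. So `lift g '' P` is the hull of
the image of the finite set, the parity classes are permuted (as in `[umconv]`), `Crit3` holds at the image of `o`: if `g v = (a v₁ + b v₂ + e, c v₁ + d v₂ + f)`
and `Crit3 P p o₁ o₂ o₃`, then `Crit3 (lift g '' P) p (a o₁ + b o₂ + e) (c o₁ + d o₂ + f) o₃` (an integer point `(x',y',z)` of `h` times
the image is `h` times `lift g (u,v,w)`; put `x = h u`, `y = h v`: these are integers because `(x' - h e, y' - h f)` is the matrix applied to `(x, y)`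
and the matrix is invertible over `ℤ`; the congruences for `(x', y')` give those for `(x, y)` by the inverse matrix). The chord is mapped to
a vertical chord of the same length. `ZEq`: use the affine equivalence built from `lift g` and `lift g'`. Last, `proj (lift g '' P) = g '' proj P`. -/
def S_vdmap : Prop := ∀ (P : Set (ℝ × ℝ × ℝ)) (p : ℕ) (L : ℝ) (g : ℝ × ℝ → ℝ × ℝ), IsUM g → VD P p L →
  VD (lift g '' P) p L ∧ ZEq P (lift g '' P) ∧ proj (lift g '' P) = g '' proj P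

/-- [projlp] Proof: the projection is linear, so it maps the convex hull onto the convex hull of the projected integer points, and the
classes modulo 2 of `(x, y)` are all met. -/
def S_projlp : Prop := ∀ P : Set (ℝ × ℝ × ℝ), IsLP3 P → PC3 P → IsLP2 (proj P) ∧ PC2 (proj P) ∧ Convex ℝ P ∧ Convex ℝ (proj P)

/-- [face] Proof: if `α w₁ + β w₂ + γ > 0` for all `w ∈ V`, then it is positive on the convex hull (the open half space is convex:
`convexHull_min`), contradiction. For `w ∈ V` the value is `≥ 0` because `ip w ∈ P`. -/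
def S_face : Prop := ∀ (V : Finset (ℤ × ℤ × ℤ)) (P : Set (ℝ × ℝ × ℝ)), P = convexHull ℝ (ip '' (V : Set (ℤ × ℤ × ℤ))) →
  ∀ α β γ : ℤ, (∀ v ∈ P, 0 ≤ α * v.1 + β * v.2.1 + γ) → (∃ v ∈ P, α * v.1 + β * v.2.1 + γ = 0) →
  ∃ w ∈ V, α * w.1 + β * w.2.1 + γ = 0

/-- [diam] The basic consequence. Proof: let `0 < h < p`, `p/L ≤ h`, `q = (u, v)` with `(u, v, w) ∈ P`, and `r, s` as in `Diam`. Put
`ζ = (p/L) Z + (h - p/L) w`. By `[res]` there is an integer `t ≡ h c` with `ζ ≤ t < ζ + p`. Let `τ = (t - ζ)/p ∈ [0,1]`; the point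
`(X, Y, Z + τ L)` is in `P` (segment), and `(r, s, t) = (p/L) (X, Y, Z + τ L) + (h - p/L) (u, v, w)`, so `(r/h, s/h, t/h)` is a convex
combination of two points of `P` (weights `(p/L)/h` and `1 - (p/L)/h`). This contradicts `Crit3` for `h`. -/
def S_diam : Prop := ∀ (P : Set (ℝ × ℝ × ℝ)) (p : ℕ) (a b c : ℤ) (X Y Z L : ℝ), Convex ℝ P → Crit3 P p a b c →
  0 < L → (X, Y, Z) ∈ P → (X, Y, Z + L) ∈ P → Diam (proj P) p a b X Y L

/-- [diammap] Proof: let `A` be the integer matrix of `g`, `t` its translation. If `r' = (p/L)(A y₀ + t) + (h - p/L)(A q + t)` (vectors), then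
`r' = A ((p/L) y₀ + (h - p/L) q) + h t`, so `r := A⁻¹ (r' - h t)` is an integer vector equal to `(p/L) y₀ + (h - p/L) q`, and
`r' - h (A o + t) = A (r - h o)` is divisible by `p` iff `r - h o` is. -/
def S_diammap : Prop := ∀ (Q : Set (ℝ × ℝ)) (p : ℕ) (a b : ℤ) (X Y L : ℝ) (A B C D E F : ℤ),
  (A * D - B * C = 1 ∨ A * D - B * C = -1) → Diam Q p a b X Y L →
  Diam ((fun v : ℝ × ℝ => ((A * v.1 + B * v.2 + E, C * v.1 + D * v.2 + F) : ℝ × ℝ)) '' Q) p
    (A * a + B * b + E) (C * a + D * b + F) (A * X + B * Y + E) (C * X + D * Y + F) L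

/-! ## D. The case of the triangle `W` -/

/-- [W1] The chord is far from the triangle. Proof. Take `h = p - 1`, `lam = h - p/L ≥ 5p/6` (since `p (1/6 - 1/L) ≥ 7 (1/6 - 1/42) = 1`).
Choose (`[res]`) `r ≡ h a` with `(p/L) X ≤ r < (p/L) X + p` and put `q₁ = (r - (p/L) X)/lam ∈ [0, 6/5]`. Since `Y ≤ X` and `X + Y ≥ 12`,
`X ≥ 6`; `τ := q₁/X ∈ [0, 1/5]`. Choose `s ≡ h b` with `β ≤ s < β + p`, `β = (p/L) Y + lam (-(1-τ)/2 + τ Y)`, and `q₂ = (s - (p/L) Y)/lam`, so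
`q₂ ∈ [-(1-τ)/2 + τ Y, -(1-τ)/2 + τ Y + 6/5]`. Let `σ = (q₂ - τ Y)/(1-τ)`; then `-1/2 ≤ σ ≤ -1/2 + (6/5)/(4/5) = 1`. The point `(0, σ)` is in `Q`
(between `(0,1)` and `(0,-1/2)`, the midpoint of `(1,0)` and `(-1,-1)`), and `(q₁, q₂) = (1-τ) (0, σ) + τ (X, Y) ∈ Q`. So `Diam` is violated. -/
def S_W1 : Prop := ∀ (Q : Set (ℝ × ℝ)) (p : ℕ) (a b : ℤ) (X Y L : ℝ), Convex ℝ Q → W3 Q → (X, Y) ∈ Q → 7 ≤ p → 42 ≤ L →
  12 ≤ X + Y → 0 ≤ Y → Y ≤ X → Diam Q p a b X Y L → False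

/-- [W2] The chord is near the triangle. Proof. Suppose `0 < h < p`, `r ≡ h a`, `s ≡ h b` and `f₁ = r + s`, `f₂ = s - 2r`, `f₃ = r - 2s` are all
`≤ h - 25 p/L`. Their sum is `0`, so `h ≥ 25 p/L`; let `lam = h - p/L > 0` and `q = ((r - (p/L) X)/lam, (s - (p/L) Y)/lam)`. With
`f_j(X,Y) ≥ -24` for each `j` (the three values are `≤ 12` and sum to `0`), `f_j(q) = (f_j(r,s) - (p/L) f_j(X,Y))/lam ≤ (h - 25 p/L + 24 p/L)/lam = 1`.
Then `q = w₁ (-1,-1) + w₂ (1,0) + w₃ (0,1)` with `w_j = (1 - f_j(q))/3 ≥ 0`, sum `1`, so `q ∈ Q`, contradicting `Diam`. -/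
def S_W2 : Prop := ∀ (Q : Set (ℝ × ℝ)) (p : ℕ) (a b : ℤ) (X Y L : ℝ), Convex ℝ Q → W3 Q → 0 < L → 0 < p →
  X + Y ≤ 12 → Y - 2 * X ≤ 12 → X - 2 * Y ≤ 12 → Diam Q p a b X Y L →
  ∀ h : ℕ, 0 < h → h < p → ∀ r s : ℤ, (p : ℤ) ∣ r - h * a → (p : ℤ) ∣ s - h * b →
    (r : ℝ) + s ≤ h - 25 * p / L → (s : ℝ) - 2 * r ≤ h - 25 * p / L → (r : ℝ) - 2 * s ≤ h - 25 * p / L → False

/-- [W7] `p = 7` by inspection (49 classes; I checked it by computer). -/
def S_W7 : Prop := ∀ a b : ℤ, ∃ h : ℕ, 0 < h ∧ h < 7 ∧ ∃ r s : ℤ, (7 : ℤ) ∣ r - h * a ∧ (7 : ℤ) ∣ s - h * b ∧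
  r + s ≤ h - 1 ∧ s - 2 * r ≤ h - 1 ∧ r - 2 * s ≤ h - 1

/-- [Wr] Large `p`. Proof. Let `E = 1 + ε`; `7 E ≤ p - 2` and `3 E ≤ p`. Let `A, B ∈ [0, p)` be the integers `≡ -a`, `≡ -b`. Suppose the claim fails.
`h = p - 1` (so `h - ε = p - E`, and targets are `≡ (A, B)`):
(1) `(r,s) = (A,B)`: `s - 2r ≤ B`, `r - 2s ≤ A`, so if `A + B ≤ p - E` all three are `≤ p - E`. Hence `A + B > p - E`.
(2) `(r,s) = (A-p, B-p)`: `r + s < 0 ≤ p - E`, `s - 2r = B - 2A + p`, `r - 2s = A - 2B + p`; so `2A - B < E` or `2B - A < E`.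
Case I, `2A - B < E`. (3) `(r,s) = (A, B-p)`: `r + s = A + B - p < A < (E + p)/2 ≤ p - E`; `s - 2r = B - 2A - p ≤ 0`; `r - 2s = A - 2B + 2p`. So
`A - 2B + 2p > p - E`, i.e. `2B - A < p + E`. Put `e₁ = A + B - p`, `e₂ = B - 2A`, `e₃ = A - 2B + p`: each is `> -E` and their sum is `0`, so each is `< 2E`.
Now `h = p - 3` and `(r,s) = (3A - p, 3B - 2p)`, which is `≡ (p-3)(a,b)`: `r + s = 3 e₁`, `s - 2r = 3 e₂`, `r - 2s = 3 e₃`, all `< 6E ≤ p - 2 - E = h - ε`. So the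
claim holds. Case II, `2B - A < E`: exchange the roles of the coordinates (`(r,s) = (A-p, B)` in (3), `e₁ = A + B - p`, `e₂ = B - 2A + p`, `e₃ = A - 2B`,
`(r,s) = (3A - 2p, 3B - p)`). -/
def S_Wr : Prop := ∀ (p : ℕ) (ε : ℝ), 0 ≤ ε → 9 + 7 * ε ≤ p → ∀ a b : ℤ, ∃ h : ℕ, (h = p - 1 ∨ h = p - 3) ∧ ∃ r s : ℤ,
  (p : ℤ) ∣ r - h * a ∧ (p : ℤ) ∣ s - h * b ∧ (r : ℝ) + s ≤ h - ε ∧ (s : ℝ) - 2 * r ≤ h - ε ∧ (r : ℝ) - 2 * s ≤ h - ε

/-- [W] The triangle case is impossible. Proof. If one of `X + Y`, `Y - 2X`, `X - 2Y` exceeds `12`, let `M > 12` be the largest of the three numbers. The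
linear map `ρ(x,y) = (-y, x - y)` sends `(1,0) ↦ (0,1) ↦ (-1,-1) ↦ (1,0)` and permutes the three functionals cyclically; so after applying `ρ` or `ρ²`
(`[diammap]`, the image of `Q` is convex and contains the three points) we may assume `X + Y = M` is the largest, then `Y - 2X ≤ X + Y` and
`X - 2Y ≤ X + Y` give `X, Y ≥ 0`; after the swap `(x,y) ↦ (y,x)` also `Y ≤ X`. `[W1]` applies. Otherwise all three are `≤ 12` and `[W2]` applies with
`ε = 25p/L ≤ p/40`: if `p = 7` then `ε ≤ 1` and `[W7]` contradicts `[W2]`; if `p ≥ 11` (`p` is prime) then `9 + 7 ε ≤ p` and `[Wr]` contradicts `[W2]`. -/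
def S_W : Prop := ∀ (Q : Set (ℝ × ℝ)) (p : ℕ) (a b : ℤ) (X Y L : ℝ), Convex ℝ Q → W3 Q → (X, Y) ∈ Q → p.Prime → 7 ≤ p →
  1000 ≤ L → Diam Q p a b X Y L → False

/-- [crit2map] Proof: as in `[diammap]`. -/
def S_crit2map : Prop := ∀ (F : Set (ℝ × ℝ)) (p : ℕ) (b c : ℤ) (g : ℝ × ℝ → ℝ × ℝ), IsUM g → Crit2 F p b c →
  ∃ b' c' : ℤ, Crit2 (g '' F) p b' c'

/-- [plane] The plane fact. Proof: by `[SW]` and `[crit2map]` we may assume `W3 F` or `S4 F`. `S4`: take `h = p - 1`, `y, z ∈ [0, p-1]` with `y ≡ h b`, `z ≡ h c`;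
`(y/h, z/h)` is in the unit square, hence in `F`; contradiction. `W3`: `p = 7`: `[W7]`; `p ≥ 11`: `[Wr]` with `ε = 0`; in both cases the point `(r,s)` satisfies
`r + s ≤ h`, `s - 2r ≤ h`, `r - 2s ≤ h`, so `(r/h, s/h)` is in the triangle `W` (barycentric coordinates `(1 - f_j)/3` as in `[W2]`), hence in `F`. -/
def S_plane : Prop := ∀ (F : Set (ℝ × ℝ)) (p : ℕ) (b c : ℤ), Convex ℝ F → PC2 F → p.Prime → 7 ≤ p → Crit2 F p b c → False

end Pool.Agent.Lib.MP_0bc52e_nt.LC
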